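import Pool.Agent.H601.T3.Main

/-!
# Corollaries: the Erdős–Turán conjecture of even order for unions of sets with few popular
differences, and unions of `B_{2k}`-sets
-/

set_option autoImplicit false

namespace Pool.Agent.H601.T3

open Finset Filter

theorem dis_mono_set {A B : Set ℕ} (h : A ⊆ B) (k M d : ℕ) : dis A k M d ≤ dis B k M d := by
  unfold dis
  apply Set.ncard_le_ncard _ (dis_finite B k M d)
  rintro ⟨x, y⟩ ⟨⟨h1, h2⟩, ⟨h3, h4⟩, h5⟩
  exact ⟨⟨h1, fun a ha => ⟨h (h2 a ha).1, (h2 a ha).2⟩⟩,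
    ⟨h3, fun a ha => ⟨h (h4 a ha).1, (h4 a ha).2⟩⟩, h5⟩

theorem erdos_turan (k : ℕ) (hk : 1 ≤ k) (m g : ℕ) (S : Fin m → Set ℕ) (hg : 1 ≤ g)
    (hS : ∀ ε : ℝ, 0 < ε → ∃ᶠ N : ℕ in atTop,
      (#{d ∈ Icc 1 N | ∃ i, g ≤ dis (S i) k N d} : ℝ) ≤ ε * N)
    (A : Set ℕ) (hAS : A ⊆ ⋃ i, S i)
    (hA : (∃ n₀ : ℕ, ∀ n ≥ n₀, 1 ≤ rep A (2 * k) n) ∨
      (∃ C x₀ : ℕ, ∀ x ≥ x₀, x ≤ C * cnt A x ^ (2 * k))) :
    ∃ i, ∀ K : ℕ, ∃ n, K < rep (A ∩ S i) (2 * k) n := by
  classical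
  have hA' : ∃ C x₀ : ℕ, ∀ x ≥ x₀, x ≤ C * cnt A x ^ (2 * k) := by
    rcases hA with ⟨n₀, h⟩ | h
    · refine ⟨2, 2 * n₀, fun x hx => ?_⟩
      have := count_of_basis (k := 2 * k) h x
      unfold cnt
      omega
    · exact h
  obtain ⟨C, x₀, hC⟩ := hA'
  by_contra hcon
  push Not at hcon
  choose Kf hKf using hcon
  set K := ∑ i, Kf i with hK
  have hK' : ∀ i n, rep (A ∩ S i) (2 * k) n ≤ K := by
    intro i n
    refine (hKf i n).trans ?_
    exact single_le_sum (f := Kf) (fun j _ => Nat.zero_le _) (mem_univ i)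
  obtain ⟨β, hβ, hpop⟩ := popular k hk K C x₀
  have hU : (⋃ i, A ∩ S i) = A := by
    rw [← Set.inter_iUnion]
    exact Set.inter_eq_left.2 hAS
  have h1 := hpop m (fun i => A ∩ S i) hK' (by rw [hU]; exact hC) g hg
  set t : ℝ := β * (m ^ (2 * k) * g) with ht
  have h2 := hS (Real.exp (-t) / 2) (by positivity)
  obtain ⟨N, h3, h4⟩ := (h2.and_eventually (eventually_ge_atTop (⌈Real.exp t⌉₊ + 1))).exists
  have h5 : Real.exp t ≤ N := (Nat.le_ceil _).trans (by exact_mod_cast (by omega : ⌈Real.exp t⌉₊ ≤ N))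
  have h6 := h1 N h5
  have h7 : (#{d ∈ Icc 1 N | ∃ i, g ≤ dis (A ∩ S i) k N d} : ℝ) ≤
      (#{d ∈ Icc 1 N | ∃ i, g ≤ dis (S i) k N d} : ℝ) := by
    have : #{d ∈ Icc 1 N | ∃ i, g ≤ dis (A ∩ S i) k N d} ≤
        #{d ∈ Icc 1 N | ∃ i, g ≤ dis (S i) k N d} := by
      apply card_le_card
      intro d hd
      rw [mem_filter] at hd ⊢
      obtain ⟨h8, i, h9⟩ := hd
      exact ⟨h8, i, h9.trans (dis_mono_set Set.inter_subset_right k N d)⟩
    exact_mod_cast this
  have hN : (0 : ℝ) < N := lt_of_lt_of_le (Real.exp_pos _) h5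
  have h8 := (h6.trans h7).trans h3
  have h9 : 0 < Real.exp (-t) := Real.exp_pos _
  nlinarith [mul_pos hN h9]

/-- differences of disjoint multisets in `B_{2k}`-sets -/
theorem dis_le_one {A : Set ℕ} {k : ℕ} (hA : ∀ n, rep A (2 * k) n ≤ 1) (M d : ℕ) :
    dis A k M d ≤ 1 := by
  unfold dis
  rw [Set.ncard_le_one (dis_finite A k M d)]
  rintro ⟨U, V⟩ ⟨⟨h1, h2⟩, ⟨h3, h4⟩, h5, h6⟩ ⟨U', V'⟩ ⟨⟨h1', h2'⟩, ⟨h3', h4'⟩, h5', h6'⟩
  simp only at h1 h2 h3 h4 h5 h6 h1' h2' h3' h4' h5' h6'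
  have e1 : U + V' = U' + V := by
    have h7 := hA (U + V').sum
    unfold rep at h7
    rw [Set.ncard_le_one (reps_finite A (2 * k) _)] at h7
    apply h7
    · refine ⟨by rw [Multiset.card_add, h1, h3', two_mul], fun a ha => ?_, rfl⟩
      rw [Multiset.mem_add] at ha
      rcases ha with ha | ha
      · exact (h2 a ha).1
      · exact (h4' a ha).1
    · refine ⟨by rw [Multiset.card_add, h1', h3, two_mul], fun a ha => ?_, ?_⟩
      · rw [Multiset.mem_add] at ha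
        rcases ha with ha | ha
        · exact (h2' a ha).1
        · exact (h4 a ha).1
      · rw [Multiset.sum_add, Multiset.sum_add, h6, h6']
        omega
  have e2 : U = U' := by
    ext x
    have c1 : U.count x + V'.count x = U'.count x + V.count x := by
      rw [← Multiset.count_add, ← Multiset.count_add, e1]
    by_cases hx : x ∈ U
    · have c2 : V.count x = 0 := Multiset.count_eq_zero.2 (h5 x hx)
      by_cases hx' : x ∈ U'
      · have c3 : V'.count x = 0 := Multiset.count_eq_zero.2 (h5' x hx')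
        omega
      · have c3 : U'.count x = 0 := Multiset.count_eq_zero.2 hx'
        omega
    · have c2 : U.count x = 0 := Multiset.count_eq_zero.2 hx
      by_cases hx' : x ∈ U'
      · have c3 : V'.count x = 0 := Multiset.count_eq_zero.2 (h5' x hx')
        omega
      · have c3 : U'.count x = 0 := Multiset.count_eq_zero.2 hx'
        omega
  have e3 : V = V' := by
    rw [e2] at e1
    exact (add_left_cancel e1).symm
  rw [e2, e3]

/-- unions of `B_{2k}`-sets -/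
theorem b2k (k : ℕ) (hk : 1 ≤ k) : ∃ c : ℝ, 0 < c ∧ ∀ (m : ℕ) (A : Fin m → Set ℕ),
    (∀ i n, rep (A i) (2 * k) n ≤ 1) → ∀ N : ℕ, 4 ≤ N → ∃ x : ℕ, N ≤ x ∧ x ≤ N ^ 2 ∧
      c * (cnt (⋃ i, A i) x : ℝ) ^ (2 * k) * Real.log N ≤ (m : ℝ) ^ (2 * k) * x := by
  classical
  obtain ⟨Q, hQ, hfin⟩ := finite_form k 1 hk
  refine ⟨1 / (16 * Q), by positivity, ?_⟩
  intro m A hA N hN
  have hN1 : 1 ≤ N := by omega
  have hNr : (0 : ℝ) < N := by exact_mod_cast hN1
  rcases Nat.eq_zero_or_pos m with hm | hm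
  · subst hm
    refine ⟨N, le_rfl, by nlinarith, ?_⟩
    have h2 : (⋃ i, A i) = ∅ := Set.iUnion_of_empty A
    rw [h2]
    unfold cnt
    rw [Set.empty_inter, Set.ncard_empty, Nat.cast_zero, zero_pow (by omega)]
    simp only [mul_zero, zero_mul]
    positivity
  have hm' : (0 : ℝ) < (m : ℝ) ^ (2 * k) := by
    have : (0 : ℝ) < m := by exact_mod_cast hm
    positivity
  set J := Nat.log 4 N with hJ
  have hJ1 : 1 ≤ J := by
    rw [hJ]
    exact Nat.log_pos (by norm_num) hN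
  have hJN : 4 ^ J ≤ N := Nat.pow_log_le_self 4 (by omega)
  have hNJ : N < 4 ^ (J + 1) := Nat.lt_pow_succ_log_self (by norm_num) N
  have hJr : (0 : ℝ) < J := by exact_mod_cast hJ1
  -- `log N ≤ 4 J`
  have hlog : Real.log N ≤ 4 * J := by
    have h1 : Real.log N ≤ Real.log ((4 : ℝ) ^ (J + 1)) := by
      apply Real.log_le_log hNr
      exact_mod_cast hNJ.le
    rw [Real.log_pow] at h1
    have h2 : Real.log 4 ≤ 2 := by
      have : Real.log 4 = 2 * Real.log 2 := by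
        rw [show (4 : ℝ) = 2 ^ 2 by norm_num, Real.log_pow]
        norm_num
      rw [this]
      have := Real.log_two_lt_d9
      linarith
    have h3 : ((J + 1 : ℕ) : ℝ) * Real.log 4 ≤ (J + 1 : ℕ) * 2 :=
      mul_le_mul_of_nonneg_left h2 (Nat.cast_nonneg _)
    have h4 : ((J + 1 : ℕ) : ℝ) ≤ 2 * J := by
      have : (1 : ℝ) ≤ J := by exact_mod_cast hJ1
      push_cast
      linarith
    linarith
  set C : ℝ := J / (4 * ((m : ℝ) ^ (2 * k) * Q)) with hC
  have hC0 : 0 < C := by positivity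
  by_contra hcon
  push Not at hcon
  have key := hfin m A hA C N J 1 ∅ hC0 hN1 hJN (by
    intro j hj
    have h1 := hcon (4 ^ j * N) (Nat.le_mul_of_pos_left _ (by positivity)) (by
      rw [pow_two]
      apply Nat.mul_le_mul_right
      exact (Nat.pow_le_pow_right (by norm_num) hj.le).trans hJN)
    push_cast at h1
    set z : ℝ := (cnt (⋃ i, A i) (4 ^ j * N) : ℝ) ^ (2 * k) with hz
    have hz0 : 0 ≤ z := by positivity
    have h2 : 1 / (16 * Q) * z * Real.log N ≤ 1 / (16 * Q) * z * (4 * J) :=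
      mul_le_mul_of_nonneg_left hlog (by positivity)
    have h3 : (m : ℝ) ^ (2 * k) * (4 ^ j * N) ≤ 1 / (16 * Q) * z * (4 * J) := h1.le.trans h2
    have h4 : 1 / (16 * Q) * z * (4 * J) = (m : ℝ) ^ (2 * k) * (C * z) := by
      rw [hC]
      field_simp
      ring
    rw [h4] at h3
    exact le_of_mul_le_mul_left h3 hm') (by
    intro i d _ _
    exact dis_le_one (hA i) _ d)
  rw [card_empty, Nat.cast_zero, zero_div, Real.sqrt_zero, mul_zero, add_zero] at key
  have h5 : C * (m : ℝ) ^ (2 * k) * Q * (((1 : ℕ) : ℝ) + 1) = J / 2 := by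
    rw [hC]
    push_cast
    field_simp
    ring
  rw [h5] at key
  linarith

end Pool.Agent.H601.T3
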