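import Mathlib

/-!
# Counting coincidences by characters
-/

set_option autoImplicit false

namespace Pool.Agent.H601.T3

open Finset

variable {ι : Type*}

/-- the additive character `x ↦ e(x / L)` of `ZMod L` -/
noncomputable def ps (L : ℕ) [NeZero L] (x : ZMod L) : ℂ := ZMod.stdAddChar x

theorem parseval (L : ℕ) [NeZero L] (P : Finset ι) (φ : ι → ℕ) (hφ : ∀ p ∈ P, φ p < L) :
    ∑ r : ZMod L, ‖∑ p ∈ P, ps L (r * (φ p : ZMod L))‖ ^ 2 =
      (L : ℝ) * (#{q ∈ P ×ˢ P | φ q.1 = φ q.2} : ℝ) := by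
  classical
  have h1 : ∀ r : ZMod L, ((‖∑ p ∈ P, ps L (r * (φ p : ZMod L))‖ ^ 2 : ℝ) : ℂ) =
      ∑ q ∈ P ×ˢ P, ps L (r * ((φ q.1 : ZMod L) - (φ q.2 : ZMod L))) := by
    intro r
    rw [← Complex.normSq_eq_norm_sq, ← Complex.mul_conj, map_sum, Finset.sum_mul_sum,
      Finset.sum_product]
    refine Finset.sum_congr rfl fun p _ => Finset.sum_congr rfl fun q _ => ?_
    unfold ps
    rw [← AddChar.map_neg_eq_conj, ← AddChar.map_add_eq_mul]
    congr 1
    ring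
  have h2 : ((∑ r : ZMod L, ‖∑ p ∈ P, ps L (r * (φ p : ZMod L))‖ ^ 2 : ℝ) : ℂ) =
      ((L : ℝ) * (#{q ∈ P ×ˢ P | φ q.1 = φ q.2} : ℝ) : ℝ) := by
    rw [Complex.ofReal_sum]
    simp_rw [h1]
    rw [Finset.sum_comm]
    have h3 : ∀ q ∈ P ×ˢ P, ∑ r : ZMod L, ps L (r * ((φ q.1 : ZMod L) - (φ q.2 : ZMod L))) =
        if φ q.1 = φ q.2 then (L : ℂ) else 0 := by
      intro q hq
      rw [mem_product] at hq
      unfold ps
      rw [AddChar.sum_mulShift _ (ZMod.isPrimitive_stdAddChar L), ZMod.card]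
      have h4 : ((φ q.1 : ZMod L) - (φ q.2 : ZMod L) = 0) ↔ φ q.1 = φ q.2 := by
        rw [sub_eq_zero, ZMod.natCast_eq_natCast_iff']
        rw [Nat.mod_eq_of_lt (hφ _ hq.1), Nat.mod_eq_of_lt (hφ _ hq.2)]
      simp only [h4]
      push_cast
      rfl
    rw [Finset.sum_congr rfl h3, ← Finset.sum_filter, Finset.sum_const, nsmul_eq_mul]
    push_cast
    ring
  exact_mod_cast h2

/-- the points `(i, X)` with `i < N` and `X ∈ B ^ k` -/
def pts (N : ℕ) (B : Finset ℕ) (k : ℕ) : Finset (ℕ × (Fin k → ℕ)) :=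
  range N ×ˢ Fintype.piFinset (fun _ => B)

/-- `i + ∑ X` -/
def ph {k : ℕ} (p : ℕ × (Fin k → ℕ)) : ℕ := p.1 + ∑ a, p.2 a

/-- the number of the coincidences `i + ∑ X = j + ∑ Y` -/
def S (N : ℕ) (B : Finset ℕ) (k : ℕ) : ℕ := #{q ∈ pts N B k ×ˢ pts N B k | ph q.1 = ph q.2}

/-- exponential sum of a finite set -/
noncomputable def ex (L : ℕ) [NeZero L] (B : Finset ℕ) (r : ZMod L) : ℂ :=
  ∑ b ∈ B, ps L (r * (b : ZMod L))

theorem ps_add (L : ℕ) [NeZero L] (x y : ZMod L) : ps L (x + y) = ps L x * ps L y := by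
  unfold ps
  rw [AddChar.map_add_eq_mul]

theorem ps_sum (L : ℕ) [NeZero L] {κ : Type*} (s : Finset κ) (f : κ → ZMod L) :
    ps L (∑ a ∈ s, f a) = ∏ a ∈ s, ps L (f a) := by
  classical
  induction s using Finset.induction_on with
  | empty => simp [ps]
  | insert a s ha ih => rw [sum_insert ha, prod_insert ha, ps_add, ih]

theorem sum_pts (L : ℕ) [NeZero L] (N : ℕ) (B : Finset ℕ) (k : ℕ) (r : ZMod L) :
    ∑ p ∈ pts N B k, ps L (r * (ph p : ZMod L)) = ex L (range N) r * ex L B r ^ k := by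
  classical
  unfold pts ex ph
  rw [sum_product]
  have h1 : (∑ b ∈ B, ps L (r * (b : ZMod L))) ^ k =
      ∑ X ∈ Fintype.piFinset (fun _ : Fin k => B), ∏ a : Fin k, ps L (r * (X a : ZMod L)) := by
    rw [← Finset.prod_univ_sum (fun _ : Fin k => B) (fun _ b => ps L (r * (b : ZMod L)))]
    simp
  rw [h1, sum_mul_sum]
  refine sum_congr rfl fun i _ => sum_congr rfl fun X _ => ?_
  rw [← ps_sum, ← ps_add]
  congr 1
  push_cast
  rw [mul_add, mul_sum]

theorem ph_lt {N M k : ℕ} {B : Finset ℕ} (hB : ∀ b ∈ B, b < M) {p : ℕ × (Fin k → ℕ)}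
    (hp : p ∈ pts N B k) : ph p < N + k * M := by
  unfold pts at hp
  rw [mem_product, mem_range, Fintype.mem_piFinset] at hp
  unfold ph
  have h1 : ∑ a, p.2 a ≤ ∑ _a : Fin k, M := sum_le_sum fun a _ => (hB _ (hp.2 a)).le
  rw [sum_const, card_univ, Fintype.card_fin, smul_eq_mul] at h1
  omega

theorem S_eq (L : ℕ) [NeZero L] {N M k : ℕ} {B : Finset ℕ} (hB : ∀ b ∈ B, b < M)
    (hL : N + k * M ≤ L) :
    (L : ℝ) * S N B k = ∑ r : ZMod L, ‖ex L (range N) r‖ ^ 2 * (‖ex L B r‖ ^ 2) ^ k := by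
  unfold S
  rw [← parseval L (pts N B k) ph (fun p hp => (ph_lt hB hp).trans_le hL)]
  refine sum_congr rfl fun r _ => ?_
  rw [sum_pts, norm_mul, norm_pow, mul_pow]
  ring

/-- colour classes -/
theorem S_colours (N M k m : ℕ) (hk : 1 ≤ k) (B : Finset ℕ) (hB : ∀ b ∈ B, b < M)
    (χ : ℕ → Fin m) :
    (S N B k : ℝ) ≤ (m : ℝ) ^ (2 * k - 1) * ∑ i : Fin m, (S N (B.filter (fun b => χ b = i)) k : ℝ) := by
  classical
  set L : ℕ := N + k * M + 1 with hL
  have : NeZero L := ⟨by omega⟩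
  have hL' : (0 : ℝ) < L := by exact_mod_cast (by omega : 0 < L)
  have h1 := S_eq L hB (N := N) (k := k) (by omega)
  have h2 : ∀ i : Fin m, (L : ℝ) * S N (B.filter (fun b => χ b = i)) k =
      ∑ r : ZMod L, ‖ex L (range N) r‖ ^ 2 * (‖ex L (B.filter (fun b => χ b = i)) r‖ ^ 2) ^ k :=
    fun i => S_eq L (M := M) (fun b hb => hB b (mem_filter.1 hb).1) (by omega)
  have h3 : ∀ r : ZMod L, ex L B r = ∑ i : Fin m, ex L (B.filter (fun b => χ b = i)) r := by
    intro r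
    unfold ex
    rw [← Finset.sum_fiberwise B χ]
  have h4 : ∀ r : ZMod L, (‖ex L B r‖ ^ 2) ^ k ≤
      (m : ℝ) ^ (2 * k - 1) * ∑ i : Fin m, (‖ex L (B.filter (fun b => χ b = i)) r‖ ^ 2) ^ k := by
    intro r
    have h5 : ‖ex L B r‖ ≤ ∑ i : Fin m, ‖ex L (B.filter (fun b => χ b = i)) r‖ := by
      rw [h3 r]
      exact norm_sum_le _ _
    have h6 := pow_sum_div_card_le_sum_pow (s := (univ : Finset (Fin m)))
      (f := fun i => ‖ex L (B.filter (fun b => χ b = i)) r‖) (fun i _ => norm_nonneg _) (2 * k - 1)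
    rw [show 2 * k - 1 + 1 = 2 * k by omega] at h6
    rcases Nat.eq_zero_or_pos m with hm | hm
    · subst hm
      have : ‖ex L B r‖ ≤ 0 := by simpa using h5
      have h0 : ‖ex L B r‖ = 0 := le_antisymm this (norm_nonneg _)
      rw [h0, univ_eq_empty, sum_empty, mul_zero]
      have hk0 : k ≠ 0 := by omega
      simp [hk0]
    · have hm' : (0 : ℝ) < (m : ℝ) ^ (2 * k - 1) := by positivity
      rw [card_univ, Fintype.card_fin, div_le_iff₀ hm'] at h6
      calc (‖ex L B r‖ ^ 2) ^ k = ‖ex L B r‖ ^ (2 * k) := by rw [← pow_mul]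
        _ ≤ (∑ i : Fin m, ‖ex L (B.filter (fun b => χ b = i)) r‖) ^ (2 * k) :=
            pow_le_pow_left₀ (norm_nonneg _) h5 _
        _ ≤ _ := h6
        _ = _ := by
            rw [mul_comm]
            congr 1
            refine sum_congr rfl fun i _ => ?_
            rw [← pow_mul]
  have h7 : (L : ℝ) * S N B k ≤ L * ((m : ℝ) ^ (2 * k - 1) *
      ∑ i : Fin m, (S N (B.filter (fun b => χ b = i)) k : ℝ)) := by
    rw [h1]
    calc ∑ r : ZMod L, ‖ex L (range N) r‖ ^ 2 * (‖ex L B r‖ ^ 2) ^ k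
        ≤ ∑ r : ZMod L, ‖ex L (range N) r‖ ^ 2 * ((m : ℝ) ^ (2 * k - 1) *
            ∑ i : Fin m, (‖ex L (B.filter (fun b => χ b = i)) r‖ ^ 2) ^ k) :=
          sum_le_sum fun r _ => mul_le_mul_of_nonneg_left (h4 r) (by positivity)
      _ = (m : ℝ) ^ (2 * k - 1) * ∑ i : Fin m, ∑ r : ZMod L,
            ‖ex L (range N) r‖ ^ 2 * (‖ex L (B.filter (fun b => χ b = i)) r‖ ^ 2) ^ k := by
          rw [sum_comm, mul_sum]
          refine sum_congr rfl fun r _ => ?_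
          rw [mul_sum, mul_sum, mul_sum]
          refine sum_congr rfl fun i _ => by ring
      _ = L * ((m : ℝ) ^ (2 * k - 1) *
            ∑ i : Fin m, (S N (B.filter (fun b => χ b = i)) k : ℝ)) := by
          simp_rw [← h2]
          rw [← mul_sum]
          ring
  exact le_of_mul_le_mul_left h7 hL'

theorem pt_ineq (x a : ℝ) (hx : 0 ≤ x) (ha : 0 ≤ a) (k : ℕ) :
    a * x ^ k ≤ x ^ (k + 1) / 2 + 2 ^ k * a ^ (k + 1) := by
  rcases le_total (2 * a) x with h | h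
  · have h1 : a * x ^ k ≤ x ^ (k + 1) / 2 := by
      rw [pow_succ]
      have := pow_nonneg hx k
      nlinarith
    have h2 : 0 ≤ 2 ^ k * a ^ (k + 1) := by positivity
    linarith
  · have h1 : x ^ k ≤ (2 * a) ^ k := pow_le_pow_left₀ hx h k
    have h2 : a * x ^ k ≤ a * (2 * a) ^ k := mul_le_mul_of_nonneg_left h1 ha
    have h3 : a * (2 * a) ^ k = 2 ^ k * a ^ (k + 1) := by
      rw [mul_pow, pow_succ]
      ring
    have h4 : 0 ≤ x ^ (k + 1) / 2 := by positivity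
    linarith

theorem S_zero (N : ℕ) (B : Finset ℕ) : S N B 0 = N := by
  classical
  unfold S pts ph
  have : ({q ∈ (range N ×ˢ Fintype.piFinset fun _ : Fin 0 => B) ×ˢ
      (range N ×ˢ Fintype.piFinset fun _ : Fin 0 => B) |
        q.1.1 + ∑ a, q.1.2 a = q.2.1 + ∑ a, q.2.2 a} :
        Finset ((ℕ × (Fin 0 → ℕ)) × (ℕ × (Fin 0 → ℕ)))) =
      (range N).image (fun i => ((i, Fin.elim0), (i, Fin.elim0))) := by
    ext ⟨⟨i, X⟩, ⟨j, Y⟩⟩
    simp only [mem_filter, mem_product, mem_range, Fintype.mem_piFinset, mem_image, Prod.mk.injEq,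
      univ_eq_empty, sum_empty, add_zero]
    constructor
    · rintro ⟨⟨⟨h1, _⟩, _⟩, h2⟩
      exact ⟨i, h1, ⟨rfl, Subsingleton.elim _ _⟩, h2, Subsingleton.elim _ _⟩
    · rintro ⟨l, h1, ⟨rfl, _⟩, rfl, _⟩
      exact ⟨⟨⟨h1, fun a => a.elim0⟩, h1, fun a => a.elim0⟩, rfl⟩
  rw [this, card_image_of_injective, card_range]
  intro i j hij
  simp only [Prod.mk.injEq] at hij
  exact hij.1.1

/-- comparison of consecutive orders -/
theorem S_step (N M k : ℕ) (B : Finset ℕ) (hB : ∀ b ∈ B, b < M) (a : ℝ) (ha : 0 ≤ a) :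
    a * S N B k ≤ (S N B (k + 1) : ℝ) / 2 + 2 ^ k * a ^ (k + 1) * N := by
  set L : ℕ := N + (k + 1) * M + 1 with hL
  have : NeZero L := ⟨by omega⟩
  have hL' : (0 : ℝ) < L := by exact_mod_cast (by omega : 0 < L)
  have h1 := S_eq L hB (N := N) (k := k + 1) (by omega)
  have h2 := S_eq L hB (N := N) (k := k) (by rw [hL, add_mul]; omega)
  have h3 := S_eq L hB (N := N) (k := 0) (by omega)
  rw [S_zero] at h3
  have h4 : (L : ℝ) * (a * S N B k) ≤
      L * ((S N B (k + 1) : ℝ) / 2 + 2 ^ k * a ^ (k + 1) * N) := by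
    calc (L : ℝ) * (a * S N B k) = a * (L * S N B k) := by ring
      _ = ∑ r : ZMod L, ‖ex L (range N) r‖ ^ 2 * (a * (‖ex L B r‖ ^ 2) ^ k) := by
          rw [h2, mul_sum]
          exact sum_congr rfl fun r _ => by ring
      _ ≤ ∑ r : ZMod L, ‖ex L (range N) r‖ ^ 2 *
            ((‖ex L B r‖ ^ 2) ^ (k + 1) / 2 + 2 ^ k * a ^ (k + 1)) :=
          sum_le_sum fun r _ => mul_le_mul_of_nonneg_left
            (pt_ineq _ a (by positivity) ha k) (by positivity)
      _ = (L * S N B (k + 1)) / 2 + 2 ^ k * a ^ (k + 1) * (L * N) := by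
          rw [h1, h3, sum_div, mul_sum, ← sum_add_distrib]
          exact sum_congr rfl fun r _ => by ring
      _ = _ := by ring
  exact le_of_mul_le_mul_left h4 hL'

end Pool.Agent.H601.T3
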