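import Pool.Agent.H601.T3.Fourier

/-!
# Lower bound for the number of coincidences
-/

set_option autoImplicit false

namespace Pool.Agent.H601.T3

open Finset

/-- number of elements of `B` less than `x` -/
def cb (B : Finset ℕ) (x : ℕ) : ℕ := #{b ∈ B | b < x}

theorem weight (J : ℕ) : ∀ (T : ℕ → ℕ), Monotone T → ∀ t : ℕ,
    (∑ j ∈ range J, if t < T j then ((1 : ℝ) / 2) ^ j else 0) ^ 2 ≤
      4 * ∑ j ∈ range J, if t < T j then ((1 : ℝ) / 4) ^ j else 0 := by
  induction J with
  | zero => intro T _ t; simp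
  | succ J ih =>
    intro T hT t
    by_cases h0 : t < T 0
    · have h1 : ∑ j ∈ range (J + 1), (if t < T j then ((1 : ℝ) / 2) ^ j else 0) ≤ 2 := by
        have h2 : ∑ j ∈ range (J + 1), (if t < T j then ((1 : ℝ) / 2) ^ j else 0) ≤
            ∑ j ∈ range (J + 1), ((1 : ℝ) / 2) ^ j := by
          refine sum_le_sum fun j _ => ?_
          split_ifs
          · exact le_rfl
          · positivity
        exact h2.trans (by
          rw [geom_sum_eq (by norm_num)]
          have : (0 : ℝ) < (1 / 2) ^ (J + 1) := by positivity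
          rw [div_le_iff_of_neg (by norm_num)]
          linarith)
      have h3 : 0 ≤ ∑ j ∈ range (J + 1), (if t < T j then ((1 : ℝ) / 2) ^ j else 0) := by
        refine sum_nonneg fun j _ => ?_
        split_ifs <;> positivity
      have h4 : 1 ≤ ∑ j ∈ range (J + 1), (if t < T j then ((1 : ℝ) / 4) ^ j else 0) := by
        have h5 : (if t < T 0 then ((1 : ℝ) / 4) ^ 0 else 0) ≤
            ∑ j ∈ range (J + 1), (if t < T j then ((1 : ℝ) / 4) ^ j else 0) :=
          single_le_sum (f := fun j => if t < T j then ((1 : ℝ) / 4) ^ j else 0)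
            (fun j _ => by split_ifs <;> positivity) (mem_range.2 (Nat.succ_pos J))
        rw [if_pos h0, pow_zero] at h5
        exact h5
      nlinarith
    · have h1 := ih (fun j => T (j + 1)) (fun a b hab => hT (by omega)) t
      have e1 : ∑ j ∈ range (J + 1), (if t < T j then ((1 : ℝ) / 2) ^ j else 0) =
          (1 / 2) * ∑ j ∈ range J, (if t < T (j + 1) then ((1 : ℝ) / 2) ^ j else 0) := by
        rw [sum_range_succ', if_neg h0, add_zero, mul_sum]
        refine sum_congr rfl fun j _ => ?_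
        split_ifs
        · rw [pow_succ]; ring
        · ring
      have e2 : ∑ j ∈ range (J + 1), (if t < T j then ((1 : ℝ) / 4) ^ j else 0) =
          (1 / 4) * ∑ j ∈ range J, (if t < T (j + 1) then ((1 : ℝ) / 4) ^ j else 0) := by
        rw [sum_range_succ', if_neg h0, add_zero, mul_sum]
        refine sum_congr rfl fun j _ => ?_
        split_ifs
        · rw [pow_succ]; ring
        · ring
      rw [e1, e2]
      nlinarith

theorem card_pts (N : ℕ) (B : Finset ℕ) (k : ℕ) : #(pts N B k) = N * #B ^ k := by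
  unfold pts
  rw [card_product, card_range, Fintype.card_piFinset]
  simp

theorem S_eq_sum (N : ℕ) (B : Finset ℕ) (k : ℕ) :
    (S N B k : ℝ) = ∑ t ∈ (pts N B k).image ph, (#{p ∈ pts N B k | ph p = t} : ℝ) ^ 2 := by
  classical
  unfold S
  have h1 : ∀ q ∈ ({q ∈ pts N B k ×ˢ pts N B k | ph q.1 = ph q.2} :
      Finset ((ℕ × (Fin k → ℕ)) × (ℕ × (Fin k → ℕ)))), ph q.1 ∈ (pts N B k).image ph := by
    intro q hq
    rw [mem_filter, mem_product] at hq
    exact mem_image_of_mem _ hq.1.1
  rw [card_eq_sum_card_fiberwise h1]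
  push_cast
  refine sum_congr rfl fun t _ => ?_
  have h2 : ({q ∈ ({q ∈ pts N B k ×ˢ pts N B k | ph q.1 = ph q.2} :
      Finset ((ℕ × (Fin k → ℕ)) × (ℕ × (Fin k → ℕ)))) | ph q.1 = t} :
        Finset ((ℕ × (Fin k → ℕ)) × (ℕ × (Fin k → ℕ)))) =
      ({p ∈ pts N B k | ph p = t} : Finset _) ×ˢ ({p ∈ pts N B k | ph p = t} : Finset _) := by
    ext ⟨p, q⟩
    simp only [mem_filter, mem_product]
    constructor
    · rintro ⟨⟨⟨h3, h4⟩, h5⟩, h6⟩
      exact ⟨⟨h3, h6⟩, h4, h5 ▸ h6⟩
    · rintro ⟨⟨h3, h6⟩, h4, h7⟩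
      exact ⟨⟨⟨h3, h4⟩, h6.trans h7.symm⟩, h6⟩
  rw [h2, card_product]
  push_cast
  ring

theorem lower (N k J : ℕ) (C : ℝ) (hN : 1 ≤ N) (hk : 1 ≤ k) (hC' : 0 < C) (B : Finset ℕ)
    (hB : ∀ j < J, (4 : ℝ) ^ j * N ≤ C * (cb B (4 ^ j * N) : ℝ) ^ (2 * k)) :
    (N : ℝ) ^ 2 * J ≤ 8 * k * C * S N B k := by
  classical
  rcases Nat.eq_zero_or_pos J with hJ | hJ
  · subst hJ
    have : (0 : ℝ) ≤ 8 * k * C * S N B k := by positivity
    simpa using this
  have hN' : (0 : ℝ) < N := by exact_mod_cast hN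
  have hk' : (0 : ℝ) < k := by exact_mod_cast hk
  have hJ' : (0 : ℝ) < J := by exact_mod_cast hJ
  set T : ℕ → ℕ := fun j => 2 * k * (4 ^ j * N) with hT
  have hTm : Monotone T := by
    intro a b hab
    rw [hT]
    dsimp only
    gcongr
    norm_num
  set W : ℕ → ℝ := fun t => ∑ j ∈ range J, if t < T j then ((1 : ℝ) / 2) ^ j else 0 with hW
  set P := pts N B k with hP
  -- (a)
  have ha : N * J * Real.sqrt (N / C) ≤ ∑ p ∈ P, W (ph p) := by
    have h1 : ∑ p ∈ P, W (ph p) =
        ∑ j ∈ range J, ((1 : ℝ) / 2) ^ j * (#{p ∈ P | ph p < T j} : ℝ) := by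
      rw [hW]
      dsimp only
      rw [sum_comm]
      refine sum_congr rfl fun j _ => ?_
      rw [← sum_filter, sum_const, nsmul_eq_mul]
      ring
    rw [h1]
    have h2 : ∀ j ∈ range J, N * Real.sqrt (N / C) ≤
        ((1 : ℝ) / 2) ^ j * (#{p ∈ P | ph p < T j} : ℝ) := by
      intro j hj
      rw [mem_range] at hj
      have h3 : N * (cb B (4 ^ j * N)) ^ k ≤ #{p ∈ P | ph p < T j} := by
        have h4 : pts N ({b ∈ B | b < 4 ^ j * N} : Finset ℕ) k ⊆
            ({p ∈ P | ph p < T j} : Finset _) := by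
          intro p hp
          have h5 := hp
          unfold pts at hp
          rw [mem_product, mem_range, Fintype.mem_piFinset] at hp
          rw [mem_filter]
          constructor
          · rw [hP]
            unfold pts
            rw [mem_product, mem_range, Fintype.mem_piFinset]
            exact ⟨hp.1, fun a => (mem_filter.1 (hp.2 a)).1⟩
          · have h6 := ph_lt (M := 4 ^ j * N) (fun b hb => (mem_filter.1 hb).2) h5
            rw [hT]
            dsimp only
            have h7 : N ≤ k * (4 ^ j * N) := by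
              have : 1 ≤ k * 4 ^ j := Nat.mul_pos hk (by positivity)
              calc N = 1 * N := (one_mul N).symm
                _ ≤ k * 4 ^ j * N := Nat.mul_le_mul_right N this
                _ = k * (4 ^ j * N) := by ring
            linarith
        have h8 := card_le_card h4
        rw [card_pts] at h8
        exact h8
      have h9 : (2 : ℝ) ^ j * Real.sqrt (N / C) ≤ ((cb B (4 ^ j * N)) ^ k : ℝ) := by
        have h10 : (((4 : ℝ) ^ j * N) / C) ≤ ((cb B (4 ^ j * N)) ^ k : ℝ) ^ 2 := by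
          rw [div_le_iff₀ hC', ← pow_mul, mul_comm k 2]
          have := hB j hj
          linarith
        have h12 : (2 : ℝ) ^ j * Real.sqrt (N / C) = Real.sqrt (((4 : ℝ) ^ j * N) / C) := by
          rw [mul_div_assoc, Real.sqrt_mul (by positivity)]
          congr 1
          rw [show (4 : ℝ) ^ j = ((2 : ℝ) ^ j) ^ 2 by rw [← pow_mul, mul_comm, pow_mul]; norm_num]
          rw [Real.sqrt_sq (by positivity)]
        rw [h12]
        calc Real.sqrt (((4 : ℝ) ^ j * N) / C) ≤ Real.sqrt (((cb B (4 ^ j * N)) ^ k : ℝ) ^ 2) :=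
              Real.sqrt_le_sqrt h10
          _ = _ := Real.sqrt_sq (by positivity)
      have h13 : (N : ℝ) * ((cb B (4 ^ j * N)) ^ k : ℝ) ≤ (#{p ∈ P | ph p < T j} : ℝ) := by
        exact_mod_cast h3
      have h14 : (N : ℝ) * (2 ^ j * Real.sqrt (N / C)) ≤ (#{p ∈ P | ph p < T j} : ℝ) :=
        (mul_le_mul_of_nonneg_left h9 hN'.le).trans h13
      have h15 : ((1 : ℝ) / 2) ^ j * ((N : ℝ) * (2 ^ j * Real.sqrt (N / C))) =
          N * Real.sqrt (N / C) := by
        have : ((1 : ℝ) / 2) ^ j * 2 ^ j = 1 := by rw [← mul_pow]; norm_num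
        linear_combination (N * Real.sqrt (N / C)) * this
      rw [← h15]
      exact mul_le_mul_of_nonneg_left h14 (by positivity)
    have h16 := sum_le_sum h2
    rw [sum_const, card_range, nsmul_eq_mul] at h16
    linarith
  -- (b)
  set I := P.image ph with hI
  have hb1 : ∑ p ∈ P, W (ph p) = ∑ t ∈ I, (#{p ∈ P | ph p = t} : ℝ) * W t := by
    rw [← sum_fiberwise_of_maps_to (g := ph) (t := I) (fun p hp => mem_image_of_mem _ hp)]
    refine sum_congr rfl fun t _ => ?_
    rw [sum_congr rfl (g := fun _ => W t) (fun p hp => by rw [(mem_filter.1 hp).2]), sum_const,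
      nsmul_eq_mul]
  have hb2 : (∑ t ∈ I, (#{p ∈ P | ph p = t} : ℝ) * W t) ^ 2 ≤
      (∑ t ∈ I, (#{p ∈ P | ph p = t} : ℝ) ^ 2) * ∑ t ∈ I, W t ^ 2 :=
    sum_mul_sq_le_sq_mul_sq _ _ _
  have hb3 : ∑ t ∈ I, W t ^ 2 ≤ 8 * k * N * J := by
    have h1 : ∑ t ∈ I, W t ^ 2 ≤
        ∑ t ∈ I, 4 * ∑ j ∈ range J, (if t < T j then ((1 : ℝ) / 4) ^ j else 0) :=
      sum_le_sum fun t _ => weight J T hTm t
    refine h1.trans ?_
    rw [← mul_sum, sum_comm]
    have h2 : ∀ j ∈ range J, ∑ t ∈ I, (if t < T j then ((1 : ℝ) / 4) ^ j else 0) ≤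
        2 * k * N := by
      intro j _
      rw [← sum_filter, sum_const, nsmul_eq_mul]
      have h3 : #{t ∈ I | t < T j} ≤ T j := by
        calc #{t ∈ I | t < T j} ≤ #(range (T j)) :=
              card_le_card (fun t ht => mem_range.2 (mem_filter.1 ht).2)
          _ = T j := card_range _
      have h4 : (#{t ∈ I | t < T j} : ℝ) ≤ 2 * k * (4 ^ j * N) := by
        have : (#{t ∈ I | t < T j} : ℝ) ≤ (T j : ℝ) := by exact_mod_cast h3
        rw [hT] at this
        push_cast at this
        exact this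
      calc (#{t ∈ I | t < T j} : ℝ) * ((1 : ℝ) / 4) ^ j
          ≤ (2 * k * (4 ^ j * N)) * ((1 : ℝ) / 4) ^ j :=
            mul_le_mul_of_nonneg_right h4 (by positivity)
        _ = 2 * k * N * (4 ^ j * ((1 : ℝ) / 4) ^ j) := by ring
        _ = 2 * k * N := by
            rw [← mul_pow]
            norm_num
    have h5 := sum_le_sum h2
    rw [sum_const, card_range, nsmul_eq_mul] at h5
    nlinarith
  rw [← S_eq_sum] at hb2
  have h0 : 0 ≤ N * J * Real.sqrt (N / C) := by positivity
  have h1 : (N * J * Real.sqrt (N / C)) ^ 2 ≤ S N B k * (8 * k * N * J) := by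
    calc (N * J * Real.sqrt (N / C)) ^ 2 ≤ (∑ p ∈ P, W (ph p)) ^ 2 :=
          pow_le_pow_left₀ h0 ha 2
      _ ≤ S N B k * ∑ t ∈ I, W t ^ 2 := by rw [hb1]; exact hb2
      _ ≤ _ := mul_le_mul_of_nonneg_left hb3 (by positivity)
  rw [mul_pow, Real.sq_sqrt (by positivity)] at h1
  have h2 : (N * J * N : ℝ) * ((N : ℝ) * J) ≤ (8 * k * C * S N B k) * (N * J) := by
    have h3 : ((N : ℝ) * J) ^ 2 * (N / C) * C ≤ S N B k * (8 * k * N * J) * C :=
      mul_le_mul_of_nonneg_right h1 hC'.le
    have h4 : ((N : ℝ) * J) ^ 2 * (N / C) * C = (N * J * N : ℝ) * ((N : ℝ) * J) := by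
      field_simp
    rw [h4] at h3
    linarith
  have h5 := le_of_mul_le_mul_right h2 (by positivity)
  linarith [h5, show (N : ℝ) * J * N = N ^ 2 * J by ring]

end Pool.Agent.H601.T3
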