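import Pool.Agent.H601.T3.Fourier
import Pool.Agent.H601.Rep

/-!
# Upper bound for the number of coincidences
-/

set_option autoImplicit false

namespace Pool.Agent.H601.T3

open Finset

/-- `dis A k M d`: the number of pairs of disjoint multisets of `k` elements of `A` less than `M`
whose sums differ by `d` -/
noncomputable def dis (A : Set ℕ) (k M d : ℕ) : ℕ :=
  Set.ncard {p : Multiset ℕ × Multiset ℕ |
    (Multiset.card p.1 = k ∧ ∀ a ∈ p.1, a ∈ A ∧ a < M) ∧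
    (Multiset.card p.2 = k ∧ ∀ a ∈ p.2, a ∈ A ∧ a < M) ∧
    (∀ a ∈ p.1, a ∉ p.2) ∧ p.1.sum = p.2.sum + d}

theorem dis_finite (A : Set ℕ) (k M d : ℕ) :
    {p : Multiset ℕ × Multiset ℕ |
      (Multiset.card p.1 = k ∧ ∀ a ∈ p.1, a ∈ A ∧ a < M) ∧
      (Multiset.card p.2 = k ∧ ∀ a ∈ p.2, a ∈ A ∧ a < M) ∧
      (∀ a ∈ p.1, a ∉ p.2) ∧ p.1.sum = p.2.sum + d}.Finite := by
  have h := (msets_finite (range M) k).1
  apply (h.prod h).subset
  rintro ⟨x, y⟩ ⟨⟨h1, h2⟩, ⟨h3, h4⟩, _⟩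
  exact ⟨⟨h1, fun a ha => mem_range.2 (h2 a ha).2⟩, ⟨h3, fun a ha => mem_range.2 (h4 a ha).2⟩⟩

/-- the multiset of the values of a tuple -/
def ms {k : ℕ} (X : Fin k → ℕ) : Multiset ℕ := (List.ofFn X : List ℕ)

theorem card_ms {k : ℕ} (X : Fin k → ℕ) : Multiset.card (ms X) = k := by simp [ms]

theorem sum_ms {k : ℕ} (X : Fin k → ℕ) : (ms X).sum = ∑ a, X a := by
  simp [ms, List.sum_ofFn]

theorem mem_ms {k : ℕ} (X : Fin k → ℕ) (x : ℕ) : x ∈ ms X ↔ ∃ a, X a = x := by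
  simp [ms, List.mem_ofFn]

theorem ms_inj {k : ℕ} {X Y : Fin k → ℕ} (h1 : ms X = ms Y) (h2 : Tuple.sort X = Tuple.sort Y) :
    X = Y := by
  have h3 : List.Perm (List.ofFn X) (List.ofFn Y) := Multiset.coe_eq_coe.1 h1
  have h4 := (Equiv.Perm.ofFn_comp_perm (Tuple.sort X) X).trans
    (h3.trans (Equiv.Perm.ofFn_comp_perm (Tuple.sort Y) Y).symm)
  have h5 := List.Perm.eq_of_sortedLE (Tuple.monotone_sort X).sortedLE_ofFn
    (Tuple.monotone_sort Y).sortedLE_ofFn h4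
  have h6 : X ∘ Tuple.sort X = Y ∘ Tuple.sort Y := List.ofFn_injective h5
  rw [h2] at h6
  funext a
  have := congrFun h6 ((Tuple.sort Y).symm a)
  simpa using this

/-- tuples and multisets -/
theorem card_tuples {k : ℕ} (T : Finset (Fin k → ℕ)) (U : Set (Multiset ℕ)) (hU : U.Finite)
    (h : ∀ X ∈ T, ms X ∈ U) : #T ≤ k.factorial * U.ncard := by
  classical
  have h1 : #T ≤ #(hU.toFinset ×ˢ (univ : Finset (Equiv.Perm (Fin k)))) := by
    apply card_le_card_of_injOn (fun X => (ms X, Tuple.sort X))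
    · intro X hX
      rw [mem_coe, mem_product]
      exact ⟨by rw [Set.Finite.mem_toFinset]; exact h X hX, mem_univ _⟩
    · intro X _ Y _ hXY
      simp only [Prod.mk.injEq] at hXY
      exact ms_inj hXY.1 hXY.2
  rw [card_product, card_univ, Fintype.card_perm, Fintype.card_fin,
    ← Set.ncard_eq_toFinset_card U hU] at h1
  rw [mul_comm]
  exact h1

/-- pairs of tuples and pairs of multisets -/
theorem card_pairs {k : ℕ} (T : Finset ((Fin k → ℕ) × (Fin k → ℕ)))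
    (U : Set (Multiset ℕ × Multiset ℕ)) (hU : U.Finite)
    (h : ∀ X ∈ T, (ms X.1, ms X.2) ∈ U) : #T ≤ k.factorial ^ 2 * U.ncard := by
  classical
  have h1 : #T ≤ #(hU.toFinset ×ˢ ((univ : Finset (Equiv.Perm (Fin k))) ×ˢ
      (univ : Finset (Equiv.Perm (Fin k))))) := by
    apply card_le_card_of_injOn
      (fun X => ((ms X.1, ms X.2), (Tuple.sort X.1, Tuple.sort X.2)))
    · intro X hX
      rw [mem_coe, mem_product]
      exact ⟨by rw [Set.Finite.mem_toFinset]; exact h X hX, mem_univ _⟩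
    · rintro ⟨X1, X2⟩ _ ⟨Y1, Y2⟩ _ hXY
      simp only [Prod.mk.injEq] at hXY
      rw [Prod.mk.injEq]
      exact ⟨ms_inj hXY.1.1 hXY.2.1, ms_inj hXY.1.2 hXY.2.2⟩
  rw [card_product, card_product, card_univ, Fintype.card_perm, Fintype.card_fin,
    ← Set.ncard_eq_toFinset_card U hU] at h1
  rw [pow_two, mul_comm]
  exact h1

/-- tuples of elements of `B` -/
def tup (B : Finset ℕ) (k : ℕ) : Finset (Fin k → ℕ) := Fintype.piFinset (fun _ => B)

theorem mem_tup {B : Finset ℕ} {k : ℕ} {X : Fin k → ℕ} : X ∈ tup B k ↔ ∀ a, X a ∈ B :=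
  Fintype.mem_piFinset

theorem card_tup (B : Finset ℕ) (k : ℕ) : #(tup B k) = #B ^ k := by
  unfold tup
  rw [Fintype.card_piFinset]
  simp

theorem card_tup_sum {A : Set ℕ} {B : Finset ℕ} (hBA : ∀ b ∈ B, b ∈ A) (k s : ℕ) :
    #{X ∈ tup B k | ∑ a, X a = s} ≤ k.factorial * rep A k s := by
  unfold rep
  apply card_tuples _ _ (reps_finite A k s)
  intro X hX
  rw [mem_filter, mem_tup] at hX
  refine ⟨card_ms X, fun a ha => ?_, by rw [sum_ms]; exact hX.2⟩
  obtain ⟨b, rfl⟩ := (mem_ms X a).1 ha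
  exact hBA _ (hX.1 b)

theorem card_two_sum {A : Set ℕ} {B : Finset ℕ} (hBA : ∀ b ∈ B, b ∈ A) (k s : ℕ) :
    #{p ∈ tup B k ×ˢ tup B k | ∑ a, p.1 a + ∑ a, p.2 a = s} ≤
      (2 * k).factorial * rep A (2 * k) s := by
  classical
  have h1 := card_tup_sum hBA (k + k) s
  have h2 : #{p ∈ tup B k ×ˢ tup B k | ∑ a, p.1 a + ∑ a, p.2 a = s} ≤
      #{X ∈ tup B (k + k) | ∑ a, X a = s} := by
    apply card_le_card_of_injOn (fun p => Fin.append p.1 p.2)
    · rintro ⟨X, Y⟩ hp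
      simp only [coe_filter, Set.mem_ofPred_eq, mem_product, mem_tup] at hp
      simp only [coe_filter, Set.mem_ofPred_eq, mem_tup]
      constructor
      · intro a
        refine Fin.addCases (fun i => ?_) (fun i => ?_) a
        · rw [Fin.append_left]; exact hp.1.1 i
        · rw [Fin.append_right]; exact hp.1.2 i
      · rw [Fin.sum_univ_add]
        simp only [Fin.append_left, Fin.append_right]
        exact hp.2
    · rintro ⟨X, Y⟩ _ ⟨X', Y'⟩ _ h
      simp only at h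
      rw [Prod.mk.injEq]
      constructor
      · funext i
        have := congrFun h (Fin.castAdd k i)
        simpa only [Fin.append_left] using this
      · funext i
        have := congrFun h (Fin.natAdd k i)
        simpa only [Fin.append_right] using this
  rw [two_mul]
  exact h2.trans h1

/-- few elements -/
theorem card_pow_le {A : Set ℕ} {B : Finset ℕ} (hBA : ∀ b ∈ B, b ∈ A) {k K M : ℕ}
    (hk : 1 ≤ k) (hA : ∀ n, rep A (2 * k) n ≤ K) (hM : 1 ≤ M) (hB : ∀ b ∈ B, b < M) :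
    #B ^ k * #B ^ k ≤ (2 * k).factorial * K * (2 * k * M) := by
  classical
  rw [← card_tup, ← card_product]
  have h1 : ∀ p ∈ tup B k ×ˢ tup B k, ∑ a, p.1 a + ∑ a, p.2 a ∈ range (2 * k * M) := by
    rintro ⟨X, Y⟩ hp
    rw [mem_product, mem_tup, mem_tup] at hp
    rw [mem_range]
    have h2 : ∑ a, X a ≤ ∑ _a : Fin k, (M - 1) :=
      sum_le_sum fun a _ => by have := hB _ (hp.1 a); simp only at this; omega
    have h3 : ∑ a, Y a ≤ ∑ _a : Fin k, (M - 1) :=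
      sum_le_sum fun a _ => by have := hB _ (hp.2 a); simp only at this; omega
    rw [sum_const, card_univ, Fintype.card_fin, smul_eq_mul] at h2 h3
    have h4 : k * (M - 1) < k * M := Nat.mul_lt_mul_of_pos_left (by omega) hk
    simp only
    have h5 : 2 * k * M = k * M + k * M := by ring
    omega
  rw [card_eq_sum_card_fiberwise h1]
  calc ∑ s ∈ range (2 * k * M), #{p ∈ tup B k ×ˢ tup B k | ∑ a, p.1 a + ∑ a, p.2 a = s}
      ≤ ∑ _s ∈ range (2 * k * M), (2 * k).factorial * K :=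
        sum_le_sum fun s _ => (card_two_sum hBA k s).trans (Nat.mul_le_mul_left _ (hA s))
    _ = (2 * k).factorial * K * (2 * k * M) := by
        rw [sum_const, card_range, smul_eq_mul]
        ring

theorem rep_half {A : Set ℕ} {k K : ℕ} (hA : ∀ n, rep A (2 * k) n ≤ K) {a : ℕ} (ha : a ∈ A)
    (s : ℕ) : rep A k s ≤ K := by
  refine le_trans ?_ (hA (s + k * a))
  unfold rep
  apply Set.ncard_le_ncard_of_injOn (fun x => x + Multiset.replicate k a) _ _
    (reps_finite A (2 * k) (s + k * a))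
  · rintro x ⟨h1, h2, h3⟩
    refine ⟨?_, ?_, ?_⟩
    · rw [Multiset.card_add, Multiset.card_replicate, h1, two_mul]
    · intro b hb
      rw [Multiset.mem_add] at hb
      rcases hb with hb | hb
      · exact h2 b hb
      · rw [Multiset.eq_of_mem_replicate hb]; exact ha
    · rw [Multiset.sum_add, Multiset.sum_replicate, h3, smul_eq_mul]
  · intro x _ y _ hxy
    exact add_right_cancel hxy

/-- pairs of tuples with equal sums -/
theorem card_eq_sums {A : Set ℕ} {B : Finset ℕ} (hBA : ∀ b ∈ B, b ∈ A) {k K : ℕ} (hk : 1 ≤ k)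
    (hA : ∀ n, rep A (2 * k) n ≤ K) :
    #{p ∈ tup B k ×ˢ tup B k | ∑ a, p.1 a = ∑ a, p.2 a} ≤ #B ^ k * (k.factorial * K) := by
  classical
  rcases B.eq_empty_or_nonempty with rfl | ⟨b, hb⟩
  · have : tup ∅ k = ∅ := by
      rw [← card_eq_zero, card_tup]
      simp
      omega
    rw [this]
    simp
  rw [card_eq_sum_card_fiberwise (f := fun p => p.2) (t := tup B k)
    (fun p hp => (mem_product.1 (mem_filter.1 hp).1).2)]
  calc _ ≤ ∑ _Y ∈ tup B k, k.factorial * K := by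
        refine sum_le_sum fun Y hY => ?_
        refine le_trans ?_ ((card_tup_sum hBA k (∑ a, Y a)).trans
          (Nat.mul_le_mul_left _ (rep_half hA (hBA b hb) _)))
        apply card_le_card_of_injOn (fun p => p.1)
        · rintro ⟨X, Y'⟩ hp
          simp only [coe_filter, Set.mem_ofPred_eq, mem_filter, mem_product] at hp ⊢
          obtain ⟨⟨⟨h1, _⟩, h2⟩, h3⟩ := hp
          exact ⟨h1, by rw [h2, h3]⟩
        · rintro ⟨X, Y'⟩ hp ⟨X2, Y2⟩ hp2 h
          simp only [coe_filter, Set.mem_ofPred_eq] at hp hp2 h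
          rw [Prod.mk.injEq]
          exact ⟨h, by rw [hp.2, hp2.2]⟩
    _ = _ := by rw [sum_const, card_tup, smul_eq_mul]

/-- the number of quadruples with equal differences -/
theorem card_energy {A : Set ℕ} {B : Finset ℕ} (hBA : ∀ b ∈ B, b ∈ A) {k K : ℕ}
    (hA : ∀ n, rep A (2 * k) n ≤ K) :
    #{q ∈ (tup B k ×ˢ tup B k) ×ˢ (tup B k ×ˢ tup B k) |
        ∑ a, q.1.1 a + ∑ a, q.2.2 a = ∑ a, q.2.1 a + ∑ a, q.1.2 a} ≤
      (#B ^ k * #B ^ k) * ((2 * k).factorial * K) := by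
  classical
  rw [card_eq_sum_card_fiberwise (f := fun q => (q.1.1, q.2.2)) (t := tup B k ×ˢ tup B k)
    (fun q hq => by
      have h1 := mem_filter.1 hq
      have h2 := mem_product.1 h1.1
      exact mem_product.2 ⟨(mem_product.1 h2.1).1, (mem_product.1 h2.2).2⟩)]
  calc _ ≤ ∑ _Y ∈ tup B k ×ˢ tup B k, (2 * k).factorial * K := by
        refine sum_le_sum fun Y hY => ?_
        refine le_trans ?_ ((card_two_sum hBA k (∑ a, Y.1 a + ∑ a, Y.2 a)).trans
          (Nat.mul_le_mul_left _ (hA _)))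
        apply card_le_card_of_injOn (fun q => (q.2.1, q.1.2))
        · rintro ⟨⟨X, Y1⟩, ⟨X', Y'⟩⟩ hq
          simp only [coe_filter, Set.mem_ofPred_eq, mem_filter, mem_product] at hq ⊢
          obtain ⟨⟨⟨⟨h1, h2⟩, h3, h4⟩, h5⟩, h6⟩ := hq
          rw [← h6]
          exact ⟨⟨h3, h2⟩, h5.symm⟩
        · rintro ⟨⟨X, Y1⟩, ⟨X', Y'⟩⟩ hq ⟨⟨X2, Y2⟩, ⟨X2', Y2'⟩⟩ hq2 h
          simp only [coe_filter, Set.mem_ofPred_eq] at hq hq2 h
          have h1 := hq.2.trans hq2.2.symm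
          simp only [Prod.mk.injEq] at h h1 ⊢
          exact ⟨⟨h1.1, h.2⟩, h.1, h1.2⟩
    _ = _ := by rw [sum_const, card_product, card_tup, smul_eq_mul]

/-- the pairs of disjoint tuples with difference `d` -/
def Dd (B : Finset ℕ) (k d : ℕ) : Finset ((Fin k → ℕ) × (Fin k → ℕ)) :=
  {p ∈ tup B k ×ˢ tup B k | (∀ a b, p.1 a ≠ p.2 b) ∧ ∑ a, p.1 a = ∑ a, p.2 a + d}

theorem card_Dd_le {A : Set ℕ} {B : Finset ℕ} (hBA : ∀ b ∈ B, b ∈ A) {k M : ℕ}
    (hB : ∀ b ∈ B, b < M) (d : ℕ) : #(Dd B k d) ≤ k.factorial ^ 2 * dis A k M d := by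
  unfold dis
  apply card_pairs _ _ (dis_finite A k M d)
  rintro ⟨X, Y⟩ hp
  unfold Dd at hp
  rw [mem_filter, mem_product, mem_tup, mem_tup] at hp
  obtain ⟨⟨h1, h2⟩, h3, h4⟩ := hp
  refine ⟨⟨card_ms X, fun a ha => ?_⟩, ⟨card_ms Y, fun a ha => ?_⟩, fun a ha hb => ?_, ?_⟩
  · obtain ⟨b, rfl⟩ := (mem_ms X a).1 ha
    exact ⟨hBA _ (h1 b), hB _ (h1 b)⟩
  · obtain ⟨b, rfl⟩ := (mem_ms Y a).1 ha
    exact ⟨hBA _ (h2 b), hB _ (h2 b)⟩
  · obtain ⟨b, hb1⟩ := (mem_ms X a).1 ha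
    obtain ⟨c, hc1⟩ := (mem_ms Y a).1 hb
    exact h3 b c (hb1.trans hc1.symm)
  · rw [sum_ms, sum_ms]
    exact h4

theorem sum_Dd_sq_le {A : Set ℕ} {B : Finset ℕ} (hBA : ∀ b ∈ B, b ∈ A) {k K : ℕ}
    (hA : ∀ n, rep A (2 * k) n ≤ K) (P : Finset ℕ) :
    (∑ d ∈ P, #(Dd B k d)) ^ 2 ≤ #P * ((#B ^ k * #B ^ k) * ((2 * k).factorial * K)) := by
  classical
  have h1 : (∑ d ∈ P, #(Dd B k d)) ^ 2 ≤ #P * ∑ d ∈ P, #(Dd B k d) ^ 2 :=
    sq_sum_le_card_mul_sum_sq
  refine h1.trans (Nat.mul_le_mul_left _ (le_trans ?_ (card_energy hBA hA)))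
  have h2 : ∑ d ∈ P, #(Dd B k d) ^ 2 = #(P.sigma (fun d => Dd B k d ×ˢ Dd B k d)) := by
    rw [card_sigma]
    exact sum_congr rfl fun d _ => by rw [card_product, pow_two]
  rw [h2]
  apply card_le_card_of_injOn (fun x => x.2)
  · rintro ⟨d, ⟨⟨X, Y⟩, ⟨X', Y'⟩⟩⟩ hx
    simp only [mem_coe, mem_sigma, mem_product, Dd, mem_filter] at hx
    obtain ⟨_, ⟨⟨h3, h4⟩, _, h5⟩, ⟨h6, h7⟩, _, h8⟩ := hx
    simp only [coe_filter, Set.mem_ofPred_eq, mem_product]
    refine ⟨⟨⟨h3, h4⟩, h6, h7⟩, ?_⟩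
    rw [h5, h8]
    ring
  · rintro ⟨d, ⟨⟨X, Y⟩, ⟨X', Y'⟩⟩⟩ hx ⟨e, ⟨⟨U, V⟩, ⟨U', V'⟩⟩⟩ hy h
    simp only [mem_coe, mem_sigma, mem_product, Dd, mem_filter] at hx hy
    simp only [Prod.mk.injEq] at h
    obtain ⟨⟨rfl, rfl⟩, rfl, rfl⟩ := h
    have h9 := hx.2.1.2.2
    have h10 := hy.2.1.2.2
    have h11 : d = e := by omega
    subst h11
    rfl

/-- the pairs which are not disjoint -/
theorem card_nondisjoint (N : ℕ) (B : Finset ℕ) (k : ℕ) :
    #{q ∈ pts N B (k + 1) ×ˢ pts N B (k + 1) |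
        (∃ a b, q.1.2 a = q.2.2 b) ∧ ph q.1 = ph q.2} ≤ (k + 1) ^ 2 * (#B * S N B k) := by
  classical
  have h1 : ({q ∈ pts N B (k + 1) ×ˢ pts N B (k + 1) |
        (∃ a b, q.1.2 a = q.2.2 b) ∧ ph q.1 = ph q.2} :
        Finset ((ℕ × (Fin (k + 1) → ℕ)) × (ℕ × (Fin (k + 1) → ℕ)))) ⊆
      (univ : Finset (Fin (k + 1) × Fin (k + 1))).biUnion (fun c =>
        {q ∈ pts N B (k + 1) ×ˢ pts N B (k + 1) | q.1.2 c.1 = q.2.2 c.2 ∧ ph q.1 = ph q.2}) := by
    intro q hq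
    rw [mem_filter] at hq
    obtain ⟨h2, ⟨a, b, h3⟩, h4⟩ := hq
    rw [mem_biUnion]
    exact ⟨(a, b), mem_univ _, by rw [mem_filter]; exact ⟨h2, h3, h4⟩⟩
  refine (card_le_card h1).trans (card_biUnion_le.trans ?_)
  have h2 : ∀ c ∈ (univ : Finset (Fin (k + 1) × Fin (k + 1))),
      #{q ∈ pts N B (k + 1) ×ˢ pts N B (k + 1) | q.1.2 c.1 = q.2.2 c.2 ∧ ph q.1 = ph q.2} ≤
        #B * S N B k := by
    rintro ⟨a, b⟩ _
    unfold S
    rw [← card_product]
    apply card_le_card_of_injOn (fun q : (ℕ × (Fin (k + 1) → ℕ)) × (ℕ × (Fin (k + 1) → ℕ)) =>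
      (q.1.2 a, ((q.1.1, Fin.removeNth a q.1.2), (q.2.1, Fin.removeNth b q.2.2))))
    · rintro ⟨⟨i, X⟩, ⟨j, Y⟩⟩ hq
      rw [mem_coe, mem_filter, mem_product] at hq
      obtain ⟨⟨hq1, hq2⟩, h7, h8⟩ := hq
      unfold pts at hq1 hq2
      rw [mem_product, mem_range, Fintype.mem_piFinset] at hq1 hq2
      unfold ph at h8
      simp only at hq1 hq2 h7 h8
      rw [mem_coe, mem_product, mem_filter, mem_product]
      unfold pts
      rw [mem_product, mem_product, mem_range, mem_range, Fintype.mem_piFinset,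
        Fintype.mem_piFinset]
      refine ⟨hq1.2 a, ⟨⟨hq1.1, fun c => hq1.2 _⟩, hq2.1, fun c => hq2.2 _⟩, ?_⟩
      rw [Fin.sum_univ_succAbove _ a, Fin.sum_univ_succAbove Y b, h7] at h8
      unfold ph
      simp only [Fin.removeNth]
      omega
    · rintro ⟨⟨i, X⟩, ⟨j, Y⟩⟩ hq ⟨⟨i', X'⟩, ⟨j', Y'⟩⟩ hq' h
      rw [mem_coe, mem_filter] at hq hq'
      simp only [Prod.mk.injEq] at h
      obtain ⟨h3, ⟨h4, h5⟩, h6, h7⟩ := h
      have e1 := hq.2.1
      have e2 := hq'.2.1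
      simp only at e1 e2
      have h8 : X = X' := by
        rw [← Fin.insertNth_self_removeNth a X, ← Fin.insertNth_self_removeNth a X', h3, h5]
      have h9 : Y = Y' := by
        rw [← Fin.insertNth_self_removeNth b Y, ← Fin.insertNth_self_removeNth b Y', h7,
          ← e1, ← e2, h3]
      rw [h4, h6, h8, h9]
  have h3 := sum_le_sum h2
  rw [sum_const, card_univ, Fintype.card_prod, Fintype.card_fin, smul_eq_mul] at h3
  rw [pow_two]
  exact h3

/-- the pairs which are disjoint -/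
theorem card_disjoint (N : ℕ) (B : Finset ℕ) (k : ℕ) (hN : 1 ≤ N) :
    #{q ∈ pts N B k ×ˢ pts N B k |
        ¬ (∃ a b, q.1.2 a = q.2.2 b) ∧ ph q.1 = ph q.2} ≤
      N * (#(Dd B k 0) + 2 * ∑ d ∈ Ico 1 N, #(Dd B k d)) := by
  classical
  set U : Finset ((Fin k → ℕ) × (Fin k → ℕ)) := {p ∈ tup B k ×ˢ tup B k | (∀ a b, p.1 a ≠ p.2 b) ∧
    ∑ a, p.1 a < ∑ a, p.2 a + N ∧ ∑ a, p.2 a < ∑ a, p.1 a + N} with hU
  have h1 : #{q ∈ pts N B k ×ˢ pts N B k |
        ¬ (∃ a b, q.1.2 a = q.2.2 b) ∧ ph q.1 = ph q.2} ≤ #(range N ×ˢ U) := by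
    apply card_le_card_of_injOn (fun q => (q.1.1, (q.1.2, q.2.2)))
    · rintro ⟨⟨i, X⟩, ⟨j, Y⟩⟩ hq
      rw [mem_coe, mem_filter, mem_product] at hq
      obtain ⟨⟨hq1, hq2⟩, h7, h8⟩ := hq
      unfold pts at hq1 hq2
      rw [mem_product, mem_range, Fintype.mem_piFinset] at hq1 hq2
      unfold ph at h8
      simp only at hq1 hq2 h7 h8
      rw [mem_coe, mem_product, mem_range, hU, mem_filter, mem_product, mem_tup, mem_tup]
      refine ⟨hq1.1, ⟨hq1.2, hq2.2⟩, fun a b hab => h7 ⟨a, b, hab⟩, ?_, ?_⟩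
      · simp only; omega
      · simp only; omega
    · rintro ⟨⟨i, X⟩, ⟨j, Y⟩⟩ hq ⟨⟨i', X'⟩, ⟨j', Y'⟩⟩ hq' h
      rw [mem_coe, mem_filter] at hq hq'
      simp only [Prod.mk.injEq] at h
      obtain ⟨rfl, rfl, rfl⟩ := h
      have h9 := hq.2.2
      have h10 := hq'.2.2
      unfold ph at h9 h10
      simp only at h9 h10
      have : j = j' := by omega
      rw [this]
  rw [card_product, card_range] at h1
  refine h1.trans (Nat.mul_le_mul_left _ ?_)
  have h2 : U ⊆ Dd B k 0 ∪ ((Ico 1 N).biUnion (fun d => Dd B k d) ∪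
      (Ico 1 N).biUnion (fun d => (Dd B k d).image Prod.swap)) := by
    rintro ⟨X, Y⟩ hp
    rw [hU, mem_filter, mem_product] at hp
    obtain ⟨⟨h3, h4⟩, h5, h6, h7⟩ := hp
    simp only at h3 h4 h5 h6 h7
    rw [mem_union, mem_union]
    rcases lt_trichotomy (∑ a, X a) (∑ a, Y a) with h | h | h
    · right; right
      rw [mem_biUnion]
      refine ⟨∑ a, Y a - ∑ a, X a, mem_Ico.2 ⟨by omega, by omega⟩, ?_⟩
      rw [mem_image]
      refine ⟨(Y, X), ?_, rfl⟩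
      unfold Dd
      rw [mem_filter, mem_product]
      exact ⟨⟨h4, h3⟩, fun a b => (h5 b a).symm, by simp only; omega⟩
    · left
      unfold Dd
      rw [mem_filter, mem_product]
      exact ⟨⟨h3, h4⟩, h5, by simp only; omega⟩
    · right; left
      rw [mem_biUnion]
      refine ⟨∑ a, X a - ∑ a, Y a, mem_Ico.2 ⟨by omega, by omega⟩, ?_⟩
      unfold Dd
      rw [mem_filter, mem_product]
      exact ⟨⟨h3, h4⟩, h5, by simp only; omega⟩
  have h3 := (card_le_card h2).trans ((card_union_le _ _).trans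
    (Nat.add_le_add_left ((card_union_le _ _).trans
      (Nat.add_le_add card_biUnion_le card_biUnion_le)) _))
  have h4 : ∑ d ∈ Ico 1 N, #((Dd B k d).image Prod.swap) ≤ ∑ d ∈ Ico 1 N, #(Dd B k d) :=
    sum_le_sum fun d _ => card_image_le
  omega

end Pool.Agent.H601.T3
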