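import Pool.Agent.H601.T3.Lower
import Pool.Agent.H601.T3.Upper

/-!
# Popular differences in unions of sets with bounded representation functions
-/

set_option autoImplicit false

namespace Pool.Agent.H601.T3

open Finset

/-- number of elements of `A` less than `x` -/
noncomputable def cnt (A : Set ℕ) (x : ℕ) : ℕ := (A ∩ Set.Iio x).ncard

theorem upper (k K : ℕ) (hk : 1 ≤ k) : ∃ Q : ℝ, 0 < Q ∧ ∀ (A : Set ℕ) (B : Finset ℕ)
    (N M g : ℕ) (P : Finset ℕ), 1 ≤ N → 1 ≤ M → (∀ b ∈ B, b ∈ A) → (∀ b ∈ B, b < M) →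
    (∀ n, rep A (2 * k) n ≤ K) → (∀ d ∈ Ico 1 N, d ∉ P → dis A k M d ≤ g) →
    (S N B k : ℝ) ≤ Q * ((N : ℝ) ^ 2 * g + N * √M + N * √(#P * M)) := by
  classical
  obtain ⟨k', rfl⟩ : ∃ k', k = k' + 1 := ⟨k - 1, by omega⟩
  set k := k' + 1 with hk'
  set R : ℝ := (((2 * k).factorial * K : ℕ) : ℝ) with hR
  set s : ℝ := √(R * (2 * k)) with hs
  set f : ℝ := ((k.factorial * K : ℕ) : ℝ) with hf
  have hR0 : 0 ≤ R := Nat.cast_nonneg _
  have hs0 : 0 ≤ s := Real.sqrt_nonneg _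
  have hf0 : 0 ≤ f := Nat.cast_nonneg _
  refine ⟨2 * s * f + 2 ^ k * ((k : ℝ) ^ 2) ^ k * s + 4 * (k.factorial : ℝ) ^ 2 + 4 * (s * √R) + 1,
    by positivity, ?_⟩
  intro A B N M g P hN hM hBA hB hA hP
  have hN' : (0 : ℝ) ≤ N := Nat.cast_nonneg _
  set b : ℝ := (#B : ℝ) ^ k with hb
  have hb0 : 0 ≤ b := by positivity
  -- number of elements
  have e1 : b * b ≤ R * (2 * k) * M := by
    have := card_pow_le hBA hk hA hM hB
    have h1 : ((#B ^ k * #B ^ k : ℕ) : ℝ) ≤ (((2 * k).factorial * K * (2 * k * M) : ℕ) : ℝ) := by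
      exact_mod_cast this
    rw [hb, hR]
    push_cast at h1 ⊢
    linarith
  have e2 : b ≤ s * √M := by
    rw [hs, ← Real.sqrt_mul (by positivity)]
    apply Real.le_sqrt_of_sq_le
    rw [pow_two]
    exact e1
  -- equal sums
  have e3 : (#(Dd B k 0) : ℝ) ≤ b * f := by
    have h1 : #(Dd B k 0) ≤ #{p ∈ tup B k ×ˢ tup B k | ∑ a, p.1 a = ∑ a, p.2 a} := by
      apply card_le_card
      intro p hp
      unfold Dd at hp
      rw [mem_filter] at hp ⊢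
      exact ⟨hp.1, by simpa using hp.2.2⟩
    have h2 := h1.trans (card_eq_sums hBA hk hA)
    rw [hb, hf]
    exact_mod_cast h2
  -- differences outside `P`
  have e4 : (∑ d ∈ (Ico 1 N).filter (fun d => d ∉ P), #(Dd B k d) : ℝ) ≤
      N * ((k.factorial : ℝ) ^ 2 * g) := by
    have h1 : ∀ d ∈ (Ico 1 N).filter (fun d => d ∉ P), (#(Dd B k d) : ℝ) ≤
        (k.factorial : ℝ) ^ 2 * g := by
      intro d hd
      rw [mem_filter] at hd
      have h2 := (card_Dd_le hBA hB d (k := k)).trans (Nat.mul_le_mul_left _ (hP d hd.1 hd.2))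
      exact_mod_cast h2
    have h3 := sum_le_sum h1
    rw [sum_const, nsmul_eq_mul] at h3
    refine h3.trans (mul_le_mul_of_nonneg_right ?_ (by positivity))
    have h4 : #((Ico 1 N).filter (fun d => d ∉ P)) ≤ N := by
      refine (card_filter_le _ _).trans ?_
      rw [Nat.card_Ico]
      omega
    exact_mod_cast h4
  -- differences in `P`
  have e5 : (∑ d ∈ (Ico 1 N).filter (fun d => d ∈ P), #(Dd B k d) : ℝ) ≤
      s * √R * √(#P * M) := by
    have h1 := sum_Dd_sq_le hBA hA ((Ico 1 N).filter (fun d => d ∈ P))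
    have h2 : #((Ico 1 N).filter (fun d => d ∈ P)) ≤ #P :=
      card_le_card (fun d hd => (mem_filter.1 hd).2)
    have h3 : ((∑ d ∈ (Ico 1 N).filter (fun d => d ∈ P), #(Dd B k d) : ℝ)) ^ 2 ≤
        #P * ((b * b) * R) := by
      have h4 := h1.trans (Nat.mul_le_mul_right _ h2)
      rw [hb, hR]
      exact_mod_cast h4
    have h5 : (#P : ℝ) * ((b * b) * R) ≤ (R * (2 * k)) * R * (#P * M) := by
      have : (b * b) * R ≤ (R * (2 * k) * M) * R := mul_le_mul_of_nonneg_right e1 hR0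
      calc (#P : ℝ) * ((b * b) * R) ≤ #P * ((R * (2 * k) * M) * R) :=
            mul_le_mul_of_nonneg_left this (Nat.cast_nonneg _)
        _ = _ := by ring
    rw [hs, ← Real.sqrt_mul (by positivity), ← Real.sqrt_mul (by positivity)]
    apply Real.le_sqrt_of_sq_le
    exact h3.trans h5
  have e6 : (∑ d ∈ Ico 1 N, #(Dd B k d) : ℝ) ≤
      s * √R * √(#P * M) + N * ((k.factorial : ℝ) ^ 2 * g) := by
    rw [← sum_filter_add_sum_filter_not (Ico 1 N) (fun d => d ∈ P)]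
    exact add_le_add e5 e4
  -- the recursion
  have e7 : (S N B k : ℝ) ≤ N * ((#(Dd B k 0) : ℝ) + 2 * ∑ d ∈ Ico 1 N, (#(Dd B k d) : ℝ)) +
      (k : ℝ) ^ 2 * #B * S N B k' := by
    have h1 := card_nondisjoint N B k'
    have h2 := card_disjoint N B k hN
    have h3 : S N B k ≤ #{q ∈ pts N B k ×ˢ pts N B k |
          (∃ a b, q.1.2 a = q.2.2 b) ∧ ph q.1 = ph q.2} +
        #{q ∈ pts N B k ×ˢ pts N B k |
          ¬ (∃ a b, q.1.2 a = q.2.2 b) ∧ ph q.1 = ph q.2} := by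
      unfold S
      refine le_trans (card_le_card ?_) (card_union_le _ _)
      intro q hq
      rw [mem_filter] at hq
      rw [mem_union, mem_filter, mem_filter]
      by_cases h : ∃ a b, q.1.2 a = q.2.2 b
      · left; exact ⟨hq.1, h, hq.2⟩
      · right; exact ⟨hq.1, h, hq.2⟩
    have h4 : S N B k ≤ N * (#(Dd B k 0) + 2 * ∑ d ∈ Ico 1 N, #(Dd B k d)) +
        k ^ 2 * (#B * S N B k') := by
      rw [hk'] at h2 h3 ⊢
      omega
    have h5 : ((S N B k : ℕ) : ℝ) ≤ ((N * (#(Dd B k 0) + 2 * ∑ d ∈ Ico 1 N, #(Dd B k d)) +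
        k ^ 2 * (#B * S N B k') : ℕ) : ℝ) := by exact_mod_cast h4
    push_cast at h5 ⊢
    linarith
  have e8 := S_step N M k' B hB ((k : ℝ) ^ 2 * #B) (by positivity)
  have e9 : ((k : ℝ) ^ 2 * #B) ^ (k' + 1) = ((k : ℝ) ^ 2) ^ k * b := by
    rw [mul_pow, hb, hk']
  rw [e9] at e8
  have e10 : (S N B k : ℝ) ≤ 2 * (N * ((#(Dd B k 0) : ℝ) + 2 * ∑ d ∈ Ico 1 N, (#(Dd B k d) : ℝ))) +
      2 ^ k * ((k : ℝ) ^ 2) ^ k * b * N := by
    have h1 : (2 : ℝ) ^ k = 2 * 2 ^ k' := by rw [hk', pow_succ]; ring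
    rw [h1]
    rw [← hk'] at e8
    nlinarith
  have e11 : N * ((#(Dd B k 0) : ℝ) + 2 * ∑ d ∈ Ico 1 N, (#(Dd B k d) : ℝ)) ≤
      N * (s * √M * f + 2 * (s * √R * √(#P * M) + N * ((k.factorial : ℝ) ^ 2 * g))) := by
    apply mul_le_mul_of_nonneg_left _ hN'
    have : b * f ≤ s * √M * f := mul_le_mul_of_nonneg_right e2 hf0
    linarith
  have e12 : 2 ^ k * ((k : ℝ) ^ 2) ^ k * b * N ≤ 2 ^ k * ((k : ℝ) ^ 2) ^ k * (s * √M) * N := by
    gcongr
  have t1 : 0 ≤ (N : ℝ) ^ 2 * g := by positivity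
  have t2 : 0 ≤ (N : ℝ) * √M := by positivity
  have t3 : 0 ≤ (N : ℝ) * √(#P * M) := by positivity
  set c1 : ℝ := 2 * s * f with hc1
  set c2 : ℝ := 2 ^ k * ((k : ℝ) ^ 2) ^ k * s with hc2
  set c3 : ℝ := 4 * (k.factorial : ℝ) ^ 2 with hc3
  set c4 : ℝ := 4 * (s * √R) with hc4
  have p1 : 0 ≤ c1 := by positivity
  have p2 : 0 ≤ c2 := by positivity
  have p3 : 0 ≤ c3 := by positivity
  have p4 : 0 ≤ c4 := by positivity
  have e13 : (S N B k : ℝ) ≤ (c1 + c2) * (N * √M) + c3 * ((N : ℝ) ^ 2 * g) +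
      c4 * (N * √(#P * M)) := by
    rw [hc1, hc2, hc3, hc4]
    nlinarith [e10, e11, e12]
  refine e13.trans ?_
  have q1 : 0 ≤ (c3 + c4 + 1) * (N * √M) := by positivity
  have q2 : 0 ≤ (c1 + c2 + c4 + 1) * ((N : ℝ) ^ 2 * g) := by positivity
  have q3 : 0 ≤ (c1 + c2 + c3 + 1) * (N * √(#P * M)) := by positivity
  nlinarith [q1, q2, q3]

/-- the finite form -/
theorem finite_form (k K : ℕ) (hk : 1 ≤ k) : ∃ Q : ℝ, 0 < Q ∧ ∀ (m : ℕ) (A : Fin m → Set ℕ),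
    (∀ i n, rep (A i) (2 * k) n ≤ K) → ∀ (C : ℝ) (N J g : ℕ) (P : Finset ℕ), 0 < C → 1 ≤ N →
    4 ^ J ≤ N →
    (∀ j < J, (4 : ℝ) ^ j * N ≤ C * (cnt (⋃ i, A i) (4 ^ j * N) : ℝ) ^ (2 * k)) →
    (∀ i, ∀ d ∈ Ico 1 N, d ∉ P → dis (A i) k (4 ^ J * N) d ≤ g) →
    (J : ℝ) ≤ C * (m : ℝ) ^ (2 * k) * Q * (g + 1 + 2 ^ J * √(#P / N)) := by
  classical
  obtain ⟨Q, hQ, hup⟩ := upper k K hk
  have hk' : (0 : ℝ) < k := by exact_mod_cast hk
  refine ⟨8 * k * Q, by positivity, ?_⟩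
  intro m A hA C N J g P hC hN hJN hcnt hP
  have hN' : (0 : ℝ) < N := by exact_mod_cast hN
  rcases Nat.eq_zero_or_pos J with hJ | hJ
  · subst hJ
    rw [Nat.cast_zero]
    positivity
  set M := 4 ^ J * N with hM
  have hM1 : 1 ≤ M := Nat.mul_pos (by positivity) hN
  have hfin : ((⋃ i, A i) ∩ Set.Iio M).Finite := (Set.finite_Iio M).subset Set.inter_subset_right
  set B : Finset ℕ := hfin.toFinset with hB
  have hBmem : ∀ b, b ∈ B ↔ b ∈ (⋃ i, A i) ∧ b < M := by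
    intro b
    rw [hB, Set.Finite.mem_toFinset]
    rfl
  have hcb : ∀ x, x ≤ M → cb B x = cnt (⋃ i, A i) x := by
    intro x hx
    unfold cb cnt
    rw [← Set.ncard_coe_finset]
    congr 1
    ext b
    rw [mem_coe, mem_filter, hBmem]
    constructor
    · rintro ⟨⟨h1, _⟩, h2⟩
      exact ⟨h1, h2⟩
    · rintro ⟨h1, h2⟩
      exact ⟨⟨h1, lt_of_lt_of_le h2 hx⟩, h2⟩
  have hlow := lower N k J C hN hk hC B (fun j hj => by
    rw [hcb (4 ^ j * N) (by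
      rw [hM]
      exact Nat.mul_le_mul_right _ (Nat.pow_le_pow_right (by norm_num) hj.le))]
    exact hcnt j hj)
  rcases Nat.eq_zero_or_pos m with hm | hm
  · exfalso
    subst hm
    have h1 := hcnt 0 hJ
    have h2 : (⋃ i, A i) = ∅ := Set.iUnion_of_empty A
    rw [h2] at h1
    unfold cnt at h1
    rw [Set.empty_inter, Set.ncard_empty] at h1
    have h3 : (0 : ℝ) ^ (2 * k) = 0 := zero_pow (by omega)
    push_cast at h1
    rw [h3] at h1
    linarith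
  have hm' : (0 : ℝ) < m := by exact_mod_cast hm
  -- a colouring
  have hχ : ∃ χ : ℕ → Fin m, ∀ b ∈ (⋃ i, A i), b ∈ A (χ b) := by
    refine ⟨fun b => if h : ∃ i, b ∈ A i then h.choose else ⟨0, hm⟩, ?_⟩
    intro b hb
    rw [Set.mem_iUnion] at hb
    simp only [dif_pos hb]
    exact hb.choose_spec
  obtain ⟨χ, hχ⟩ := hχ
  have hcol := S_colours N M k m hk B (fun b hb => ((hBmem b).1 hb).2) χ
  have hup2 : ∀ i : Fin m, (S N (B.filter (fun b => χ b = i)) k : ℝ) ≤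
      Q * ((N : ℝ) ^ 2 * g + N * √M + N * √(#P * M)) := by
    intro i
    apply hup (A i) _ N M g P hN hM1 _ _ (hA i) (hP i)
    · intro b hb
      rw [mem_filter] at hb
      have := hχ b ((hBmem b).1 hb.1).1
      rw [hb.2] at this
      exact this
    · intro b hb
      rw [mem_filter] at hb
      exact ((hBmem b).1 hb.1).2
  have hsum : ∑ i : Fin m, (S N (B.filter (fun b => χ b = i)) k : ℝ) ≤
      m * (Q * ((N : ℝ) ^ 2 * g + N * √M + N * √(#P * M))) := by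
    have := sum_le_sum (fun i (_ : i ∈ (univ : Finset (Fin m))) => hup2 i)
    rw [sum_const, card_univ, Fintype.card_fin, nsmul_eq_mul] at this
    exact this
  have hS : (S N B k : ℝ) ≤ (m : ℝ) ^ (2 * k) *
      (Q * ((N : ℝ) ^ 2 * g + N * √M + N * √(#P * M))) := by
    have h1 : (m : ℝ) ^ (2 * k) = m ^ (2 * k - 1) * m := by
      rw [← pow_succ]
      congr 1
      omega
    calc (S N B k : ℝ) ≤ _ := hcol
      _ ≤ (m : ℝ) ^ (2 * k - 1) * (m * (Q * ((N : ℝ) ^ 2 * g + N * √M + N * √(#P * M)))) :=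
          mul_le_mul_of_nonneg_left hsum (by positivity)
      _ = _ := by rw [h1]; ring
  -- square roots
  have hsM : √(M : ℝ) ≤ N := by
    rw [Real.sqrt_le_left (Nat.cast_nonneg _), hM]
    push_cast
    have : ((4 ^ J : ℕ) : ℝ) ≤ N := by exact_mod_cast hJN
    push_cast at this
    nlinarith
  have hsP : √((#P : ℝ) * M) = N * (2 ^ J * √(#P / N)) := by
    have h1 : (#P : ℝ) * M = (N * 2 ^ J) ^ 2 * (#P / N) := by
      rw [hM]
      push_cast
      have : (4 : ℝ) ^ J = (2 ^ J) ^ 2 := by rw [← pow_mul, mul_comm, pow_mul]; norm_num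
      rw [this]
      field_simp
    rw [h1, Real.sqrt_mul (by positivity), Real.sqrt_sq (by positivity)]
    ring
  rw [hsP] at hS
  have hfin2 : (N : ℝ) ^ 2 * J ≤ (N : ℝ) ^ 2 * (C * (m : ℝ) ^ (2 * k) * (8 * k * Q) *
      (g + 1 + 2 ^ J * √(#P / N))) := by
    have h1 : (N : ℝ) ^ 2 * g + N * √M + N * (N * (2 ^ J * √(#P / N))) ≤
        (N : ℝ) ^ 2 * (g + 1 + 2 ^ J * √(#P / N)) := by nlinarith
    have h2 : (S N B k : ℝ) ≤ (m : ℝ) ^ (2 * k) *
        (Q * ((N : ℝ) ^ 2 * (g + 1 + 2 ^ J * √(#P / N)))) :=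
      hS.trans (mul_le_mul_of_nonneg_left (mul_le_mul_of_nonneg_left h1 hQ.le) (by positivity))
    calc (N : ℝ) ^ 2 * J ≤ 8 * k * C * S N B k := hlow
      _ ≤ 8 * k * C * ((m : ℝ) ^ (2 * k) *
        (Q * ((N : ℝ) ^ 2 * (g + 1 + 2 ^ J * √(#P / N))))) :=
          mul_le_mul_of_nonneg_left h2 (by positivity)
      _ = _ := by ring
  exact le_of_mul_le_mul_left hfin2 (by positivity)

theorem dis_mono (A : Set ℕ) (k : ℕ) {M M' : ℕ} (h : M ≤ M') (d : ℕ) :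
    dis A k M d ≤ dis A k M' d := by
  unfold dis
  apply Set.ncard_le_ncard _ (dis_finite A k M' d)
  rintro ⟨x, y⟩ ⟨⟨h1, h2⟩, ⟨h3, h4⟩, h5⟩
  exact ⟨⟨h1, fun a ha => ⟨(h2 a ha).1, (h2 a ha).2.trans_le h⟩⟩,
    ⟨h3, fun a ha => ⟨(h4 a ha).1, (h4 a ha).2.trans_le h⟩⟩, h5⟩

theorem popular (k : ℕ) (hk : 1 ≤ k) (K C x₀ : ℕ) : ∃ β : ℝ, 1 ≤ β ∧
    ∀ (m : ℕ) (A : Fin m → Set ℕ), (∀ i n, rep (A i) (2 * k) n ≤ K) →
      (∀ x ≥ x₀, x ≤ C * cnt (⋃ i, A i) x ^ (2 * k)) →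
      ∀ g : ℕ, 1 ≤ g → ∀ N : ℕ, Real.exp (β * (m ^ (2 * k) * g)) ≤ N →
        N * Real.exp (-(β * (m ^ (2 * k) * g))) ≤
          (#{d ∈ Icc 1 N | ∃ i, g ≤ dis (A i) k N d} : ℝ) := by
  classical
  obtain ⟨Q, hQ, hfin⟩ := finite_form k K hk
  set c : ℝ := 4 * (C + 1) * Q + 1 with hc
  have hc1 : 1 ≤ c := by
    rw [hc]
    have : 0 ≤ 4 * ((C : ℝ) + 1) * Q := by positivity
    linarith
  refine ⟨4 * c + Real.log (x₀ + 1), ?_, ?_⟩
  · have : 0 ≤ Real.log ((x₀ : ℝ) + 1) := Real.log_nonneg (by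
      have : (0 : ℝ) ≤ x₀ := Nat.cast_nonneg _
      linarith)
    linarith
  intro m A hA hcnt g hg n hn
  rcases Nat.eq_zero_or_pos m with hm | hm
  · exfalso
    subst hm
    have h1 := hcnt (x₀ + 1) (by omega)
    have h2 : (⋃ i, A i) = ∅ := Set.iUnion_of_empty A
    rw [h2] at h1
    unfold cnt at h1
    rw [Set.empty_inter, Set.ncard_empty, zero_pow (by omega)] at h1
    omega
  have hm' : (1 : ℝ) ≤ (m : ℝ) ^ (2 * k) := one_le_pow₀ (by exact_mod_cast hm)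
  have hg' : (1 : ℝ) ≤ g := by exact_mod_cast hg
  set E : ℝ := (C + 1) * (m : ℝ) ^ (2 * k) * Q with hE
  have hE0 : 0 < E := by positivity
  set J : ℕ := ⌈2 * E * (g + 1)⌉₊ with hJ
  have hJ1 : 2 * E * (g + 1) ≤ J := Nat.le_ceil _
  have hJ0 : 1 ≤ J := by
    have : (0 : ℝ) < J := lt_of_lt_of_le (by positivity) hJ1
    exact_mod_cast this
  have hJ0' : (1 : ℝ) ≤ J := by exact_mod_cast hJ0
  have hJ2 : (J : ℝ) ≤ c * (m ^ (2 * k) * g) := by
    have h1 : (J : ℝ) < 2 * E * (g + 1) + 1 := Nat.ceil_lt_add_one (by positivity)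
    have h2 : 2 * E * (g + 1) ≤ 2 * E * (2 * g) := by
      apply mul_le_mul_of_nonneg_left _ (by positivity)
      linarith
    have h3 : (1 : ℝ) ≤ (m : ℝ) ^ (2 * k) * g := one_le_mul_of_one_le_of_one_le hm' hg'
    have h4 : c * ((m : ℝ) ^ (2 * k) * g) = 2 * E * (2 * g) + (m : ℝ) ^ (2 * k) * g := by
      rw [hc, hE]
      ring
    linarith
  -- the size of `n`
  have hlx : 0 ≤ Real.log ((x₀ : ℝ) + 1) := Real.log_nonneg (by
      have : (0 : ℝ) ≤ x₀ := Nat.cast_nonneg _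
      linarith)
  have h3 : (1 : ℝ) ≤ (m : ℝ) ^ (2 * k) * g := one_le_mul_of_one_le_of_one_le hm' hg'
  have hexp : 4 * (J : ℝ) + Real.log (x₀ + 1) ≤
      (4 * c + Real.log (x₀ + 1)) * (m ^ (2 * k) * g) := by nlinarith
  have hexp2 : Real.exp (4 * (J : ℝ)) * (x₀ + 1) ≤ n := by
    refine le_trans ?_ hn
    rw [← Real.exp_log (show (0 : ℝ) < x₀ + 1 by positivity), ← Real.exp_add, Real.log_exp]
    exact Real.exp_le_exp.2 hexp
  have h4exp : (4 : ℝ) ≤ Real.exp 2 := by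
    have := Real.add_one_le_exp (1 : ℝ)
    have h : Real.exp 2 = Real.exp 1 * Real.exp 1 := by rw [← Real.exp_add]; norm_num
    rw [h]
    nlinarith
  have h16 : (16 : ℝ) ^ J ≤ Real.exp (4 * (J : ℝ)) := by
    rw [mul_comm, Real.exp_nat_mul]
    apply pow_le_pow_left₀ (by norm_num)
    have h : Real.exp 4 = Real.exp 2 * Real.exp 2 := by rw [← Real.exp_add]; norm_num
    rw [h]
    nlinarith
  have hn16 : (16 : ℝ) ^ J * (x₀ + 1) ≤ n :=
    (mul_le_mul_of_nonneg_right h16 (by positivity)).trans hexp2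
  have hn16' : 16 ^ J * (x₀ + 1) ≤ n := by exact_mod_cast hn16
  set N := n / 4 ^ J with hN
  have h44 : 16 ^ J = 4 ^ J * 4 ^ J := by rw [← mul_pow]; norm_num
  have hp4 : 0 < 4 ^ J := by positivity
  have hNge : 4 ^ J * (x₀ + 1) ≤ N := by
    rw [hN, Nat.le_div_iff_mul_le hp4]
    calc 4 ^ J * (x₀ + 1) * 4 ^ J = 16 ^ J * (x₀ + 1) := by rw [h44]; ring
      _ ≤ n := hn16'
  have hN4 : 4 ^ J ≤ N := le_trans (Nat.le_mul_of_pos_right _ (by omega)) hNge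
  have hNx : x₀ ≤ N := by
    have : x₀ + 1 ≤ 4 ^ J * (x₀ + 1) := Nat.le_mul_of_pos_left _ hp4
    omega
  have hN1 : 1 ≤ N := le_trans hp4 hN4
  have hMn : 4 ^ J * N ≤ n := by
    rw [hN]
    exact Nat.mul_div_le n (4 ^ J)
  have hnN : n < 2 * (4 ^ J * N) := by
    have h1 : n < 4 ^ J * (N + 1) := by
      rw [hN]
      exact Nat.lt_mul_div_succ n hp4
    have h2 : 4 ^ J * (N + 1) ≤ 2 * (4 ^ J * N) := by
      have : 4 ^ J ≤ 4 ^ J * N := Nat.le_mul_of_pos_right _ hN1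
      linarith
    omega
  set P : Finset ℕ := {d ∈ Icc 1 n | ∃ i, g ≤ dis (A i) k n d} with hP
  have key := hfin m A hA (C + 1) N J g P (by positivity) hN1 hN4 (by
    intro j _
    have h1 := hcnt (4 ^ j * N) (le_trans hNx (Nat.le_mul_of_pos_left _ (by positivity)))
    have h2 : ((4 ^ j * N : ℕ) : ℝ) ≤ ((C * cnt (⋃ i, A i) (4 ^ j * N) ^ (2 * k) : ℕ) : ℝ) := by
      exact_mod_cast h1
    push_cast at h2
    have h3 : (0 : ℝ) ≤ (cnt (⋃ i, A i) (4 ^ j * N) : ℝ) ^ (2 * k) := by positivity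
    nlinarith) (by
    intro i d hd hdP
    rw [mem_Ico] at hd
    have h1 : ¬ g ≤ dis (A i) k n d := by
      intro h
      apply hdP
      rw [hP, mem_filter, mem_Icc]
      refine ⟨⟨hd.1, ?_⟩, i, h⟩
      have : N ≤ 4 ^ J * N := Nat.le_mul_of_pos_left _ hp4
      omega
    have h2 := dis_mono (A i) k hMn d
    omega)
  rw [← hE] at key
  have hNr : (0 : ℝ) < N := by exact_mod_cast hN1
  have k1 : (1 : ℝ) ≤ 2 ^ J * √(#P / N) := by
    have h1 : 2 * E * (g + 1) ≤ E * (g + 1 + 2 ^ J * √(#P / N)) := hJ1.trans key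
    have h2 : E * (g + 1) ≤ E * (2 ^ J * √(#P / N)) := by linarith
    have h3 := le_of_mul_le_mul_left h2 hE0
    linarith
  have k2 : (N : ℝ) ≤ 4 ^ J * #P := by
    have h1 : (1 : ℝ) ≤ (2 ^ J * √(#P / N)) ^ 2 := one_le_pow₀ k1
    rw [mul_pow, Real.sq_sqrt (by positivity)] at h1
    have h2 : ((2 : ℝ) ^ J) ^ 2 = 4 ^ J := by rw [← pow_mul, mul_comm, pow_mul]; norm_num
    rw [h2, mul_div_assoc', le_div_iff₀ hNr] at h1
    linarith
  -- conclusion
  have k3 : (n : ℝ) ≤ 2 * 16 ^ J * #P := by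
    have h1 : (n : ℝ) ≤ 2 * (4 ^ J * N) := by exact_mod_cast hnN.le
    have h2 : (16 : ℝ) ^ J = 4 ^ J * 4 ^ J := by rw [← mul_pow]; norm_num
    rw [h2]
    have h3 : (4 : ℝ) ^ J * N ≤ 4 ^ J * (4 ^ J * #P) :=
      mul_le_mul_of_nonneg_left k2 (by positivity)
    linarith
  have k4 : (2 : ℝ) * 16 ^ J ≤ Real.exp ((4 * c + Real.log (x₀ + 1)) * (m ^ (2 * k) * g)) := by
    have h1 : (2 : ℝ) * 16 ^ J ≤ Real.exp (4 * (J : ℝ)) := by
      rw [mul_comm 4 (J : ℝ), Real.exp_nat_mul]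
      have h2 : (32 : ℝ) ≤ Real.exp 4 := by
        have a1 : (2.7 : ℝ) ≤ Real.exp 1 := by
          have := Real.exp_one_gt_d9
          linarith
        have h : Real.exp 4 = (Real.exp 1 * Real.exp 1) * (Real.exp 1 * Real.exp 1) := by
          rw [← Real.exp_add, ← Real.exp_add]; norm_num
        rw [h]
        have a2 : (7.29 : ℝ) ≤ Real.exp 1 * Real.exp 1 := by nlinarith
        nlinarith
      have h3 : (32 : ℝ) ^ J ≤ Real.exp 4 ^ J := pow_le_pow_left₀ (by norm_num) h2 J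
      have h4 : (2 : ℝ) * 16 ^ J ≤ 32 ^ J := by
        have : (32 : ℝ) ^ J = 2 ^ J * 16 ^ J := by rw [← mul_pow]; norm_num
        rw [this]
        apply mul_le_mul_of_nonneg_right _ (by positivity)
        calc (2 : ℝ) = 2 ^ 1 := by norm_num
          _ ≤ 2 ^ J := pow_le_pow_right₀ (by norm_num) hJ0
      exact h4.trans h3
    exact h1.trans (Real.exp_le_exp.2 (by linarith))
  have k5 : (n : ℝ) ≤ Real.exp ((4 * c + Real.log (x₀ + 1)) * (m ^ (2 * k) * g)) * #P :=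
    k3.trans (mul_le_mul_of_nonneg_right k4 (Nat.cast_nonneg _))
  rw [Real.exp_neg]
  rw [← div_eq_mul_inv, div_le_iff₀ (Real.exp_pos _)]
  linarith

end Pool.Agent.H601.T3
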